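import Pool.Agent.TH533.Q.Sym

set_option autoImplicit false

/-!
Classification of the set of occupied diagonals.
-/

namespace Pool.Agent.TH533.Q

open Finset

/-- the set `A` of nonnegative occupied diagonals with its two properties -/
structure Cls (M g : ℤ) (A : Finset ℤ) : Prop where
  hg : 0 < g
  hgM : g < M
  rA : ∀ a ∈ A, 0 ≤ a ∧ a < M
  z : (0 : ℤ) ∈ A
  i : ∀ a ∈ A, ∀ b ∈ A, a + b ≠ M
  ii : ∀ a ∈ A, ∀ b ∈ A, (a - b ∈ A ∨ b - a ∈ A) ∨ (M - (a + b) ∈ A ∨ a + b - M ∈ A)
  bd : ∀ a ∈ A, a ≠ 0 → g ≤ a ∧ a ≤ M - g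

/-- the possible shapes -/
def Concl (M : ℤ) (p : ℕ) (A : Finset ℤ) : Prop :=
  (∀ a ∈ A, 2 ∣ a) ∨
  (∃ g z : ℤ, (g = 1 ∨ g = 3) ∧ (z = ((p : ℤ) - 1) * g ∨ z = M - ((p : ℤ) - 1) * g) ∧
    ∀ a, a ∈ A ↔ ((∃ j : ℕ, j + 2 ≤ p ∧ a = j * g) ∨ a = z)) ∨
  (p = 4 ∧ ∃ g s : ℤ, 0 < g ∧ g < s ∧ s < M - g - s ∧ ∀ a, a ∈ A ↔ (a = 0 ∨ a = g ∨ a = s ∨ a = M - g - s))

lemma even_of_mult {M g : ℤ} {A : Finset ℤ} (hM : 2 ∣ M) (h : ∀ a ∈ A, g ∣ a)
    (hc : ∃ c : ℤ, M = (2 * c + 1) * g) : ∀ a ∈ A, 2 ∣ a := by
  obtain ⟨c, hc⟩ := hc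
  have h2 : (2 : ℤ) ∣ g := by
    rw [hc] at hM
    rcases Int.Prime.dvd_mul' Nat.prime_two (by exact_mod_cast hM : ((2 : ℕ) : ℤ) ∣ (2 * c + 1) * g) with h1 | h1
    · exfalso; push_cast at h1; omega
    · exact_mod_cast h1
  intro a ha
  exact h2.trans (h a ha)

/-- Case H: the set is an arithmetic progression -/
lemma Cls.caseH {M g : ℤ} {A : Finset ℤ} (h : Cls M g A) (hN : M - g ∈ A)
    (hr : ∀ a ∈ A, M - g - a ∈ A) :
    ∃ (s : ℤ) (q : ℕ), g < s ∧ M - g = q * s ∧ ∀ a, a ∈ A ↔ ∃ j : ℕ, j ≤ q ∧ a = j * s := by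
  classical
  obtain ⟨hg, hgM, rA, z, i, ii, bd⟩ := h
  have hne : (A.erase 0).Nonempty := ⟨M - g, mem_erase.2 ⟨by omega, hN⟩⟩
  obtain ⟨s, hs, hmin⟩ := (A.erase 0).exists_min_image id hne
  simp only [id] at hmin
  rw [mem_erase] at hs
  have hs1 := bd s hs.2 hs.1
  have hsg : s ≠ g := by
    rintro rfl
    exact i _ hs.2 _ hN (by ring)
  have hgs : g < s := lt_of_le_of_ne hs1.1 (Ne.symm hsg)
  have smin : ∀ a ∈ A, a ≠ 0 → s ≤ a := fun a ha h0 => hmin a (mem_erase.2 ⟨h0, ha⟩)
  have H1 : ∀ a ∈ A, a + g ∉ A := by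
    intro a ha hag
    exact i _ hag _ (hr a ha) (by ring)
  have gA : g ∉ A := by
    intro hgA
    exact i _ hgA _ hN (by ring)
  -- Claim D
  have D : ∀ t ∈ A, t < M - g → t + s ∈ A := by
    by_contra hcon
    push Not at hcon
    obtain ⟨t0, h1, h2, h3⟩ := hcon
    obtain ⟨t, ht, htmin⟩ := (A.filter (fun t => t < M - g ∧ t + s ∉ A)).exists_min_image id
      ⟨t0, mem_filter.2 ⟨h1, h2, h3⟩⟩
    simp only [id] at htmin
    rw [mem_filter] at ht
    obtain ⟨ht1, ht2, ht3⟩ := ht
    have ht0 : t ≠ 0 := by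
      rintro rfl
      apply ht3
      rw [zero_add]; exact hs.2
    have hts := smin t ht1 ht0
    have hNt := smin (M - g - t) (hr t ht1) (by omega)
    rcases hts.eq_or_lt with heq | hlt
    · subst heq
      rcases ii s hs.2 (M - g - s) (hr s hs.2) with (h4 | h4) | (h4 | h4)
      · have := (rA _ h4).1
        apply ht3
        have e : s + s = M - g := by omega
        rw [e]; exact hN
      · apply ht3
        have := hr _ h4
        have e : M - g - (M - g - s - s) = s + s := by ring
        rwa [e] at this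
      · apply gA
        have e : M - (s + (M - g - s)) = g := by ring
        rwa [e] at h4
      · have := (rA _ h4).1
        omega
    · rcases ii (M - g - t) (hr t ht1) s hs.2 with (h4 | h4) | (h4 | h4)
      · apply ht3
        have := hr _ h4
        have e : M - g - (M - g - t - s) = t + s := by ring
        rwa [e] at this
      · have := (rA _ h4).1
        apply ht3
        have e : t + s = M - g := by omega
        rw [e]; exact hN
      · have e : M - (M - g - t + s) = t + g - s := by ring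
        rw [e] at h4
        have := htmin (t + g - s) (mem_filter.2 ⟨h4, by omega, by
          have e2 : t + g - s + s = t + g := by ring
          rw [e2]
          exact H1 t ht1⟩)
        omega
      · have := (rA _ h4).1
        omega
  obtain ⟨r, hr2⟩ := ladder A s (by omega) z (fun a ha => (rA a ha).1) (by
    intro a ha h0
    have h1 := D _ (hr a ha) (by
      have := (rA a ha).1
      omega)
    have h2 := hr _ h1
    have e : M - g - (M - g - a + s) = a - s := by ring
    rwa [e] at h2)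
  refine ⟨s, r, hgs, ?_, hr2⟩
  obtain ⟨j, hj, hj2⟩ := (hr2 _).1 hN
  have h1 := (hr2 (r * s)).2 ⟨r, le_rfl, rfl⟩
  have h2 : (r : ℤ) * s ≤ M - g := by
    by_cases h0 : (r : ℤ) * s = 0
    · rw [h0]; omega
    · exact (bd _ h1 h0).2
  have h3 : (r : ℤ) * s ≤ j * s := by rw [← hj2]; exact h2
  have h4 : (r : ℤ) ≤ j := le_of_mul_le_mul_right h3 (by omega)
  have h5 : r = j := by
    have : r ≤ j := by exact_mod_cast h4
    omega
  rw [hj2, h5]

/-- conclusion in case H -/
lemma Cls.conclH {M g : ℤ} {A : Finset ℤ} (h : Cls M g A) (hN : M - g ∈ A)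
    (hr : ∀ a ∈ A, M - g - a ∈ A) (hM : 2 ∣ M) (h1 : 3 * (A.card : ℤ) - 1 ≤ M)
    (h2 : M ≤ 4 * (A.card : ℤ) - 2) : Concl M A.card A := by
  obtain ⟨s, q, hgs, hq, hA⟩ := h.caseH hN hr
  have hg := h.hg
  have hgM := h.hgM
  have hc := ladder_card A s (by omega) q hA
  rw [hc] at h1 h2 ⊢
  push_cast at h1 h2
  have hq0 : (0 : ℤ) < q := by
    by_contra h0
    have : (q : ℤ) = 0 := by omega
    rw [this] at hq
    omega
  have hq1 : 1 ≤ q := by omega
  have hs6 : s < 6 := by
    by_contra h6
    nlinarith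
  have hs1 : 2 ≤ s := by omega
  interval_cases s
  · omega
  · -- s = 3
    right; left
    refine ⟨3, 3 * q, Or.inr rfl, Or.inl (by push_cast; ring), ?_⟩
    intro a
    rw [hA]
    constructor
    · rintro ⟨j, hj, rfl⟩
      by_cases h3 : j = q
      · right; rw [h3]; ring
      · left; exact ⟨j, by omega, rfl⟩
    · rintro (⟨j, hj, rfl⟩ | rfl)
      · exact ⟨j, by omega, rfl⟩
      · exact ⟨q, le_rfl, by ring⟩
  · -- s = 4
    left
    intro a ha
    obtain ⟨j, -, rfl⟩ := (hA a).1 ha
    omega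
  · -- s = 5
    have hq2 : q = 1 := by omega
    subst hq2
    right; left
    refine ⟨1, 5, Or.inl rfl, Or.inr (by push_cast at *; omega), ?_⟩
    intro a
    rw [hA]
    constructor
    · rintro ⟨j, hj, rfl⟩
      have : j = 0 ∨ j = 1 := by omega
      rcases this with rfl | rfl
      · left; exact ⟨0, by omega, by simp⟩
      · right; simp
    · rintro (⟨j, hj, rfl⟩ | rfl)
      · have : j = 0 := by omega
        subst this
        exact ⟨0, by omega, by simp⟩
      · exact ⟨1, le_rfl, by simp⟩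

/-- the data of case L -/
structure ClsL (M g : ℤ) (r : ℕ) (A : Finset ℤ) : Prop extends Cls M g A where
  gA : g ∈ A
  NA : M - g ∉ A
  hR : ∀ a, (a ∈ A ∧ M - g - a ∉ A) ↔ ∃ j : ℕ, j ≤ r ∧ a = j * g

namespace ClsL

variable {M g : ℤ} {r : ℕ} {A : Finset ℤ}

/-- members with a mirror image -/
def T (M g : ℤ) (A : Finset ℤ) (a : ℤ) : Prop := a ∈ A ∧ M - g - a ∈ A

lemma T_refl {a : ℤ} (h : T M g A a) : T M g A (M - g - a) := ⟨h.2, by rw [sub_sub_cancel]; exact h.1⟩

lemma T_pos (h : ClsL M g r A) {a : ℤ} (ha : T M g A a) : g ≤ a ∧ a ≤ M - g - g := by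
  have h0 : a ≠ 0 := by
    rintro rfl
    exact h.NA (by have := ha.2; rwa [sub_zero] at this)
  have h1 : M - g - a ≠ 0 := by
    intro h1
    apply h.NA
    have : M - g = a := by linarith
    rw [this]; exact ha.1
  have h2 := h.bd a ha.1 h0
  have h3 := h.bd _ ha.2 h1
  omega

lemma T1 (h : ClsL M g r A) {a : ℤ} (ha : T M g A a) : a + g ∉ A := by
  intro h1
  exact h.i _ h1 _ ha.2 (by ring)

lemma cases (h : ClsL M g r A) {a : ℤ} (ha : a ∈ A) : (∃ j : ℕ, j ≤ r ∧ a = j * g) ∨ T M g A a := by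
  by_cases h1 : M - g - a ∈ A
  · exact Or.inr ⟨ha, h1⟩
  · exact Or.inl ((h.hR a).1 ⟨ha, h1⟩)

lemma mulA (h : ClsL M g r A) {j : ℕ} (hj : j ≤ r) : (j : ℤ) * g ∈ A := ((h.hR _).2 ⟨j, hj, rfl⟩).1

lemma notT (h : ClsL M g r A) {j : ℕ} (hj : j ≤ r) : ¬ T M g A (j * g) := fun h1 =>
  ((h.hR _).2 ⟨j, hj, rfl⟩).2 h1.2

/-- case r = 0 -/
lemma concl0 (h : ClsL M g 0 A) (hM : 2 ∣ M) (h1 : 3 * (A.card : ℤ) - 1 ≤ M)
    (h2 : M ≤ 4 * (A.card : ℤ) - 2) : Concl M A.card A := by
  classical
  have hg := h.hg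
  have hgM := h.hgM
  have hT : ∀ a ∈ A, a ≠ 0 → T M g A a := by
    intro a ha h0
    rcases h.cases ha with ⟨j, hj, rfl⟩ | h3
    · have : j = 0 := by omega
      subst this
      simp at h0
    · exact h3
  have Tg : T M g A g := hT g h.gA (by omega)
  have hNg : M - g - g ∈ A := Tg.2
  have g2 : 2 * g ∉ A := by
    have := h.T1 Tg
    rwa [show g + g = 2 * g by ring] at this
  have key : ∀ t ∈ A, t ≠ 0 → t ≠ M - g - g → t = g ∨ t - 2 * g ∈ A := by
    intro t ht h0 h3
    have Tt := hT t ht h0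
    have hb := h.T_pos Tt
    rcases h.ii t ht (M - g - g) hNg with (h4 | h4) | (h4 | h4)
    · have := (h.rA _ h4).1
      omega
    · have h5 : M - g - g - t ≠ 0 := by omega
      have := h.T1 (hT _ h4 h5)
      exact absurd Tt.2 (by rwa [show M - g - g - t + g = M - g - t by ring] at this)
    · have e : M - (t + (M - g - g)) = 2 * g - t := by ring
      rw [e] at h4
      by_cases h5 : 2 * g - t = 0
      · exfalso
        apply g2
        have : 2 * g = t := by linarith
        rw [this]; exact ht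
      · have := h.bd _ h4 h5
        left; omega
    · right
      have e : t + (M - g - g) - M = t - 2 * g := by ring
      rwa [e] at h4
  by_cases hex : ∃ t ∈ A, t ≠ 0 ∧ t ≠ g ∧ t ≠ M - g - g
  · left
    obtain ⟨t, ht, ht0, htg, htN⟩ := hex
    have hgN : g ≠ M - g - g := by
      intro he
      have hb := h.T_pos (hT t ht ht0)
      omega
    -- odd multiples
    set S : Finset ℤ := ((A.erase 0).erase (M - g - g)).image (fun a => a - g) with hS
    have hSm : ∀ x, x ∈ S ↔ x + g ∈ A ∧ x + g ≠ 0 ∧ x + g ≠ M - g - g := by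
      intro x
      rw [hS, mem_image]
      constructor
      · rintro ⟨a, ha, rfl⟩
        rw [mem_erase, mem_erase] at ha
        rw [sub_add_cancel]
        tauto
      · rintro ⟨h3, h4, h5⟩
        exact ⟨x + g, by rw [mem_erase, mem_erase]; tauto, by ring⟩
    obtain ⟨k, hk⟩ := ladder S (2 * g) (by omega) (by
      rw [hSm, zero_add]
      exact ⟨h.gA, by omega, hgN⟩) (by
      intro a ha
      rw [hSm] at ha
      have := h.bd _ ha.1 ha.2.1
      omega) (by
      intro a ha h0
      rw [hSm] at ha ⊢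
      rcases key _ ha.1 ha.2.1 ha.2.2 with h3 | h3
      · omega
      · have hb := h.T_pos (hT _ ha.1 ha.2.1)
        have e : a - 2 * g + g = a + g - 2 * g := by ring
        rw [e]
        refine ⟨h3, ?_, by omega⟩
        intro h4
        apply g2
        have : 2 * g = a + g := by linarith
        rw [this]; exact ha.1)
    have hodd : ∀ a ∈ A, a ≠ 0 → a ≠ M - g - g → ∃ j : ℕ, a = (2 * j + 1) * g := by
      intro a ha h0 h3
      have h4 : a - g ∈ S := by
        rw [hSm, sub_add_cancel]; exact ⟨ha, h0, h3⟩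
      obtain ⟨j, -, hj⟩ := (hk _).1 h4
      exact ⟨j, by linarith⟩
    obtain ⟨j, hj⟩ := hodd t ht ht0 htN
    have hj1 : 1 ≤ j := by
      by_contra hc
      have : j = 0 := by omega
      subst this
      apply htg
      rw [hj]; simp
    -- 3 g is in A
    have h3S : (2 * g) ∈ S := by
      rw [hk]
      have h4 : t - g ∈ S := by
        rw [hSm, sub_add_cancel]; exact ⟨ht, ht0, htN⟩
      obtain ⟨j', hj', hj2⟩ := (hk _).1 h4
      refine ⟨1, ?_, by simp⟩
      by_contra hc
      have : j' = 0 := by omega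
      subst this
      simp at hj2
      apply htg
      linarith
    rw [hSm] at h3S
    have h3A : 3 * g ∈ A := by
      have := h3S.1
      rwa [show 2 * g + g = 3 * g by ring] at this
    have T3 := hT _ h3A (by omega)
    obtain ⟨i, hi⟩ := hodd _ T3.2 (by
      intro h4
      apply g2
      have : 2 * g = M - g - g := by linarith
      rw [this]; exact hNg) (by omega)
    have hMg : M = (2 * (i + 2 : ℤ) + 1) * g := by linarith
    apply even_of_mult hM _ ⟨_, hMg⟩
    intro a ha
    by_cases h0 : a = 0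
    · rw [h0]; exact dvd_zero g
    · by_cases h4 : a = M - g - g
      · rw [h4, hMg]
        exact ⟨2 * (i + 2 : ℤ) + 1 - 2, by ring⟩
      · obtain ⟨j, hj⟩ := hodd a ha h0 h4
        exact ⟨2 * j + 1, by rw [hj]; ring⟩
  · push Not at hex
    have hA : ∀ a, a ∈ A ↔ (a = 0 ∨ a = g ∨ a = M - g - g) := by
      intro a
      constructor
      · intro ha
        by_cases h0 : a = 0
        · exact Or.inl h0
        · by_cases h3 : a = g
          · exact Or.inr (Or.inl h3)
          · exact Or.inr (Or.inr (hex a ha h0 h3))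
      · rintro (rfl | rfl | rfl)
        · exact h.z
        · exact h.gA
        · exact hNg
    have hb := h.T_pos Tg
    by_cases hgN : g = M - g - g
    · -- p = 2
      have : A = {0, g} := by
        ext a
        rw [hA, mem_insert, mem_singleton, ← hgN]
        tauto
      rw [this, card_pair (by omega)] at h1 h2
      push_cast at h1 h2
      left
      intro a ha
      rcases (hA a).1 ha with rfl | rfl | rfl <;> omega
    · have hc : A = {0, g, M - g - g} := by
        ext a
        rw [hA, mem_insert, mem_insert, mem_singleton]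
      have hcard : A.card = 3 := by
        rw [hc, card_insert_of_notMem, card_pair hgN]
        rw [mem_insert, mem_singleton]
        omega
      rw [hcard] at h1 h2 ⊢
      push_cast at h1 h2
      have hg3 : g ≤ 3 := by omega
      have hg' : g = 1 ∨ g = 2 ∨ g = 3 := by omega
      have gen : (g = 1 ∨ g = 3) → Concl M 3 A := by
        intro hg13
        right; left
        refine ⟨g, M - 2 * g, hg13, Or.inr (by norm_num), ?_⟩
        intro a
        rw [hA]
        constructor
        · rintro (rfl | rfl | rfl)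
          · left; exact ⟨0, by omega, by simp⟩
          · left; exact ⟨1, by omega, by simp⟩
          · right; ring
        · rintro (⟨j, hj, rfl⟩ | rfl)
          · have : j = 0 ∨ j = 1 := by omega
            rcases this with rfl | rfl
            · left; simp
            · right; left; simp
          · right; right; ring
      rcases hg' with h3 | h3 | h3
      · exact gen (Or.inl h3)
      · left
        intro a ha
        rcases (hA a).1 ha with rfl | rfl | rfl <;> omega
      · exact gen (Or.inr h3)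

end ClsL

end Pool.Agent.TH533.Q
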