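import Pool.Agent.TH533.Q.Class

set_option autoImplicit false

/-!
Classification of the set of occupied diagonals, second case.
-/

namespace Pool.Agent.TH533.Q

open Finset

namespace ClsL

variable {M g : ℤ} {r : ℕ} {A : Finset ℤ}

/-- case r = 1 -/
lemma concl1 (h : ClsL M g 1 A) (hM : 2 ∣ M) (h1 : 3 * (A.card : ℤ) - 1 ≤ M)
    (h2 : M ≤ 4 * (A.card : ℤ) - 2) : Concl M A.card A := by
  classical
  have hg := h.hg
  have hgM := h.hgM
  have hcase : ∀ a ∈ A, a = 0 ∨ a = g ∨ T M g A a := by
    intro a ha
    rcases h.cases ha with ⟨j, hj, rfl⟩ | h3
    · have : j = 0 ∨ j = 1 := by omega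
      rcases this with rfl | rfl
      · left; simp
      · right; left; simp
    · exact Or.inr (Or.inr h3)
  have hTg : ¬ T M g A g := by
    have := h.notT (j := 1) le_rfl
    simpa using this
  have hTb : ∀ a, T M g A a → g < a ∧ a < M - g - g := by
    intro a ha
    have h3 := h.T_pos ha
    have h4 : a ≠ g := by rintro rfl; exact hTg ha
    have h5 : M - g - a ≠ g := by
      intro h6
      have := T_refl ha
      rw [h6] at this
      exact hTg this
    omega
  by_cases hne : ∃ a, T M g A a
  swap
  · -- T empty
    push Not at hne
    have hA : A = {0, g} := by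
      ext a
      rw [mem_insert, mem_singleton]
      constructor
      · intro ha
        rcases hcase a ha with h3 | h3 | h3
        · exact Or.inl h3
        · exact Or.inr h3
        · exact absurd h3 (hne a)
      · rintro (rfl | rfl)
        · exact h.z
        · exact h.gA
    have hc : A.card = 2 := by rw [hA, card_pair (by omega)]
    rw [hc] at h1 h2 ⊢
    push_cast at h1 h2
    have hM6 : M = 6 := by omega
    have h3 := (h.bd g h.gA (by omega)).2
    have h4 : g ≠ 3 := by
      rintro rfl
      exact h.i 3 h.gA 3 h.gA (by omega)
    have h5 : g = 1 ∨ g = 2 := by omega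
    rcases h5 with rfl | rfl
    · right; left
      refine ⟨1, 1, Or.inl rfl, Or.inl (by norm_num), ?_⟩
      intro a
      rw [hA, mem_insert, mem_singleton]
      constructor
      · rintro (rfl | rfl)
        · left; exact ⟨0, le_rfl, by simp⟩
        · right; rfl
      · rintro (⟨j, hj, rfl⟩ | rfl)
        · have : j = 0 := by omega
          subst this
          left; simp
        · right; rfl
    · left
      intro a ha
      rw [hA, mem_insert, mem_singleton] at ha
      rcases ha with rfl | rfl <;> norm_num
  -- T nonempty
  obtain ⟨a0, ha0⟩ := hne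
  obtain ⟨s, hs, hmin⟩ := (A.filter (fun a => M - g - a ∈ A)).exists_min_image id
    ⟨a0, mem_filter.2 ha0⟩
  rw [mem_filter] at hs
  have Ts : T M g A s := hs
  have smin : ∀ a, T M g A a → s ≤ a := fun a ha => hmin a (mem_filter.2 ha)
  have smax : ∀ a, T M g A a → a ≤ M - g - s := by
    intro a ha
    have := smin _ (T_refl ha)
    omega
  have hgs := (hTb s Ts).1
  have hNs : T M g A (M - g - s) := T_refl Ts
  have up : ∀ a ∈ A, g < a → T M g A a := by
    intro a ha h3
    rcases hcase a ha with h4 | h4 | h4
    · omega
    · omega
    · exact h4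
  have mir : ∀ t, T M g A t → t < M - g - s → M - g - t - s ∈ A → t + s ∈ A := by
    intro t ht h3 h4
    rcases hcase _ h4 with h5 | h5 | h5
    · omega
    · exfalso
      apply h.T1 ht
      have e : t + g = M - g - s := by linarith
      rw [e]; exact hNs.1
    · have := h5.2
      have e : M - g - (M - g - t - s) = t + s := by ring
      rwa [e] at this
  have claim1 : ∀ t, (T M g A t ∧ t < M - g - s ∧ t + s ∉ A) → s < t →
      (T M g A (t + g - s) ∧ t + g - s < M - g - s ∧ t + g - s + s ∉ A) := by
    rintro t ⟨b1, b2, b3⟩ hst
    have key : t + g - s ∈ A := by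
      rcases h.ii (M - g - t) b1.2 s Ts.1 with (h4 | h4) | (h4 | h4)
      · exact absurd (mir t b1 b2 h4) b3
      · have := (h.rA _ h4).1; omega
      · have e : M - (M - g - t + s) = t + g - s := by ring
        rwa [e] at h4
      · have := (h.rA _ h4).1; omega
    have k2 := up _ key (by omega)
    refine ⟨k2, ?_, ?_⟩
    · have := hTb t b1; omega
    · rw [sub_add_cancel]; exact h.T1 b1
  have claim2 : ∀ t, (T M g A t ∧ t < M - g - s ∧ t + s ∉ A) → s < t →
      t = s + 2 * g ∨ T M g A (t - s - g) := by
    rintro t ⟨b1, b2, b3⟩ hst
    rcases h.ii t b1.1 (M - g - s) hNs.1 with (h4 | h4) | (h4 | h4)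
    · have := (h.rA _ h4).1; omega
    · exact absurd (mir t b1 b2 (by rwa [show M - g - s - t = M - g - t - s by ring] at h4)) b3
    · have e : M - (t + (M - g - s)) = g + s - t := by ring
      rw [e] at h4
      have h5 := (h.rA _ h4).1
      rcases hcase _ h4 with h6 | h6 | h6
      · exfalso
        apply h.T1 Ts
        have e2 : s + g = t := by linarith
        rw [e2]; exact b1.1
      · omega
      · have := hTb _ h6; omega
    · have e : t + (M - g - s) - M = t - s - g := by ring
      rw [e] at h4
      rcases hcase _ h4 with h6 | h6 | h6
      · exfalso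
        apply h.T1 Ts
        have e2 : s + g = t := by linarith
        rw [e2]; exact b1.1
      · left; linarith
      · right; exact h6
  by_cases hbad : ∃ t, (T M g A t ∧ t < M - g - s ∧ t + s ∉ A) ∧ s < t
  · -- s = 3 g
    left
    obtain ⟨t0, ht0, hst0⟩ := hbad
    obtain ⟨t, ht, htmin⟩ := (A.filter (fun t => (T M g A t ∧ t < M - g - s ∧ t + s ∉ A) ∧
      s < t)).exists_min_image id ⟨t0, mem_filter.2 ⟨ht0.1.1, ht0, hst0⟩⟩
    simp only [id] at htmin
    rw [mem_filter] at ht
    obtain ⟨-, ht1, ht2⟩ := ht
    have b1 := claim1 t ht1 ht2
    have b2 : t + g - s = s := by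
      by_contra hc
      have b3 := smin _ b1.1
      have b4 := htmin (t + g - s) (mem_filter.2 ⟨b1.1.1, b1, lt_of_le_of_ne b3 (Ne.symm hc)⟩)
      omega
    have hs3 : s = 3 * g := by
      rcases claim2 t ht1 ht2 with h3 | h3
      · omega
      · have := smin _ h3
        omega
    -- bad elements are odd multiples
    have hodd : ∀ n : ℕ, ∀ t, (T M g A t ∧ t < M - g - s ∧ t + s ∉ A) → t.toNat ≤ n →
        ∃ j : ℕ, t = (2 * j + 3) * g := by
      intro n
      induction n with
      | zero =>
        intro t ht hn
        have := (hTb t ht.1).1
        omega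
      | succ n ih =>
        intro t ht hn
        by_cases h3 : t = s
        · exact ⟨0, by rw [h3, hs3]; push_cast; ring⟩
        · have h4 : s < t := lt_of_le_of_ne (smin _ ht.1) (Ne.symm h3)
          have h5 := claim1 t ht h4
          have h6 := (hTb _ h5.1).1
          obtain ⟨j, hj⟩ := ih _ h5 (by omega)
          exact ⟨j + 1, by push_cast; linarith⟩
    have h3n : ∀ t, (T M g A t ∧ t < M - g - s ∧ t + s ∉ A) → s < t → t - 3 * g ∉ A := by
      intro t ht hst hmem
      rcases claim2 t ht hst with h3 | h3
      · rcases hcase _ hmem with h4 | h4 | h4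
        · omega
        · omega
        · have := smin _ h4; omega
      · apply h.T1 h3
        have e : t - s - g + g = t - 3 * g := by rw [hs3]; ring
        rw [e]; exact hmem
    have step : ∀ t, (T M g A t ∧ t < M - g - s ∧ t + s ∉ A) → s < t →
        (T M g A (t + 2 * g) ∧ t + 2 * g < M - g - s ∧ t + 2 * g + s ∉ A) ∨
          t = M - g - 5 * g := by
      rintro t ht hst
      have hn := h3n t ht hst
      obtain ⟨c1, c2, c3⟩ := ht
      have d1 : M - g - (t + 2 * g) ∈ A := by
        rcases h.ii t c1.1 s Ts.1 with (h4 | h4) | (h4 | h4)
        · exact absurd (by rwa [hs3] at h4) hn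
        · have := (h.rA _ h4).1; omega
        · have e : M - (t + s) = M - g - (t + 2 * g) := by rw [hs3]; ring
          rwa [e] at h4
        · have := (h.rA _ h4).1; omega
      have d2 := up _ d1 (by omega)
      have d3 : T M g A (t + 2 * g) := by
        have := T_refl d2
        rwa [sub_sub_cancel] at this
      rcases h.ii (M - g - t) c1.2 (M - g - s) hNs.1 with (h4 | h4) | (h4 | h4)
      · have := (h.rA _ h4).1; omega
      · exact absurd (by
          have e : M - g - s - (M - g - t) = t - 3 * g := by rw [hs3]; ring
          rwa [e] at h4) hn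
      · have e : M - (M - g - t + (M - g - s)) = t + s + 2 * g - M := by ring
        rw [e] at h4
        have := (h.rA _ h4).1
        rcases hcase _ h4 with h5 | h5 | h5
        · exfalso
          apply h.T1 c1
          have e2 : t + g = M - g - s := by linarith
          rw [e2]; exact hNs.1
        · omega
        · have := (hTb _ h5).1; omega
      · have e : M - g - t + (M - g - s) - M = M - g - (t + 4 * g) := by rw [hs3]; ring
        rw [e] at h4
        rcases hcase _ h4 with h5 | h5 | h5
        · exfalso
          apply h.T1 c1
          have e2 : t + g = M - g - s := by linarith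
          rw [e2]; exact hNs.1
        · right; linarith
        · left
          have h6 := T_refl h5
          rw [sub_sub_cancel] at h6
          refine ⟨d3, ?_, ?_⟩
          · have := smax _ h6; omega
          · have e2 : t + 2 * g + s = t + 4 * g + g := by rw [hs3]; ring
            rw [e2]
            exact h.T1 h6
    obtain ⟨u, hu, humax⟩ := (A.filter (fun t => (T M g A t ∧ t < M - g - s ∧ t + s ∉ A) ∧
      s < t)).exists_max_image id ⟨t0, mem_filter.2 ⟨ht0.1.1, ht0, hst0⟩⟩
    simp only [id] at humax
    rw [mem_filter] at hu
    obtain ⟨-, hu1, hu2⟩ := hu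
    have hu3 : u = M - g - 5 * g := by
      rcases step u hu1 hu2 with h3 | h3
      · have := humax _ (mem_filter.2 ⟨h3.1.1, h3, by omega⟩)
        omega
      · exact h3
    obtain ⟨j, hj⟩ := hodd _ u hu1 le_rfl
    have hMg : M = (2 * ((j : ℤ) + 4) + 1) * g := by linarith
    apply even_of_mult hM _ ⟨_, hMg⟩
    by_contra hcon
    push Not at hcon
    obtain ⟨v0, hv0, hv0n⟩ := hcon
    obtain ⟨v, hv, hvmin⟩ := (A.filter (fun a => ¬ g ∣ a)).exists_min_image id
      ⟨v0, mem_filter.2 ⟨hv0, hv0n⟩⟩
    simp only [id] at hvmin
    rw [mem_filter] at hv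
    obtain ⟨hv1, hv2⟩ := hv
    have Tv : T M g A v := by
      rcases hcase v hv1 with h3 | h3 | h3
      · exact absurd (by rw [h3]; exact dvd_zero g) hv2
      · exact absurd (by rw [h3]) hv2
      · exact h3
    have hvs : s < v := lt_of_le_of_ne (smin _ Tv) (by
      intro hsv
      exact hv2 ⟨3, by rw [← hsv, hs3]; ring⟩)
    have h3 : M - g - v + s ∈ A := by
      by_contra hc
      obtain ⟨j', hj'⟩ := hodd _ (M - g - v) ⟨T_refl Tv, by omega, hc⟩ le_rfl
      apply hv2
      exact ⟨(2 * ((j : ℤ) + 4)) - (2 * j' + 3), by linarith⟩
    have h4 := up _ h3 (by have := hTb _ (T_refl Tv); omega)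
    have h5 := T_refl h4
    have e : M - g - (M - g - v + s) = v - s := by ring
    rw [e] at h5
    have := hvmin (v - s) (mem_filter.2 ⟨h5.1, by
      rintro ⟨c, hc⟩
      apply hv2
      exact ⟨c + 3, by rw [hs3] at hc; linarith⟩⟩)
    omega
  · push Not at hbad
    by_cases sb : T M g A s ∧ s < M - g - s ∧ s + s ∉ A
    · -- T = {s, N - s}
      have hT2 : ∀ a, T M g A a → a = s ∨ a = M - g - s := by
        by_contra hcon
        push Not at hcon
        obtain ⟨v0, hv0, hv1, hv2⟩ := hcon
        obtain ⟨v, hv, hvmin⟩ := (A.filter (fun a => T M g A a ∧ a ≠ s ∧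
          a ≠ M - g - s)).exists_min_image id ⟨v0, mem_filter.2 ⟨hv0.1, hv0, hv1, hv2⟩⟩
        simp only [id] at hvmin
        rw [mem_filter] at hv
        obtain ⟨-, Tv, w1, w2⟩ := hv
        have w3 := smin _ Tv
        have w4 := smax _ Tv
        have w5 : M - g - v + s ∈ A := by
          by_contra hc
          have := hbad _ ⟨T_refl Tv, by omega, hc⟩
          omega
        have w6 := T_refl (up _ w5 (by have := hTb _ (T_refl Tv); omega))
        rw [show M - g - (M - g - v + s) = v - s by ring] at w6
        by_cases w7 : v - s = s
        · apply sb.2.2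
          rw [show s + s = v by linarith]; exact Tv.1
        · have := hvmin (v - s) (mem_filter.2 ⟨w6.1, w6, w7, by omega⟩)
          omega
      right; right
      have hA : ∀ a, a ∈ A ↔ (a = 0 ∨ a = g ∨ a = s ∨ a = M - g - s) := by
        intro a
        constructor
        · intro ha
          rcases hcase a ha with h3 | h3 | h3
          · exact Or.inl h3
          · exact Or.inr (Or.inl h3)
          · exact Or.inr (Or.inr (hT2 a h3))
        · rintro (rfl | rfl | rfl | rfl)
          · exact h.z
          · exact h.gA
          · exact Ts.1
          · exact hNs.1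
      have hsN := sb.2.1
      have hc : A.card = 4 := by
        have : A = {0, g, s, M - g - s} := by
          ext a
          rw [hA, mem_insert, mem_insert, mem_insert, mem_singleton]
        rw [this, card_insert_of_notMem, card_insert_of_notMem, card_pair (by omega)]
        · rw [mem_insert, mem_singleton]
          omega
        · rw [mem_insert, mem_insert, mem_singleton]
          omega
      exact ⟨hc, g, s, hg, hgs, hsN, hA⟩
    · -- no bad at all
      have nobad : ∀ t, T M g A t → t < M - g - s → t + s ∈ A := by
        intro t ht h3
        by_contra hc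
        by_cases h4 : t = s
        · subst h4; exact sb ⟨ht, h3, hc⟩
        · have := hbad t ⟨ht, h3, hc⟩
          have := smin _ ht
          omega
      set S : Finset ℤ := (A.filter (fun a => M - g - a ∈ A)).image (fun a => a - s) with hS
      have hSm : ∀ x, x ∈ S ↔ T M g A (x + s) := by
        intro x
        rw [hS, mem_image]
        constructor
        · rintro ⟨a, ha, rfl⟩
          rw [mem_filter] at ha
          rw [sub_add_cancel]
          exact ha
        · intro h3
          exact ⟨x + s, mem_filter.2 h3, by ring⟩
      obtain ⟨k, hk⟩ := ladder S s (by omega) (by rw [hSm, zero_add]; exact Ts) (by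
        intro a ha
        rw [hSm] at ha
        have := smin _ ha
        omega) (by
        intro a ha h0
        rw [hSm] at ha ⊢
        have w4 := smax _ ha
        have w3 := smin _ ha
        have w5 := nobad _ (T_refl ha) (by omega)
        have w6 := T_refl (up _ w5 (by have := hTb _ (T_refl ha); omega))
        rw [show M - g - (M - g - (a + s) + s) = a - s + s by ring] at w6
        exact w6)
      have hN : M - g = ((k : ℤ) + 2) * s := by
        obtain ⟨j, hj, hj2⟩ := (hk (M - g - s - s)).1 (by rw [hSm, sub_add_cancel]; exact hNs)
        have h3 := (hk (k * s)).2 ⟨k, le_rfl, rfl⟩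
        rw [hSm] at h3
        have h4 := smax _ h3
        have h5 : (k : ℤ) * s ≤ j * s := by rw [← hj2]; linarith
        have h6 : (k : ℤ) ≤ j := le_of_mul_le_mul_right h5 (by omega)
        have h7 : k = j := by
          have : k ≤ j := by exact_mod_cast h6
          omega
        subst h7
        linarith
      have hcT : S.card = k + 1 := ladder_card S s (by omega) k hk
      have hcS : S.card = (A.filter (fun a => M - g - a ∈ A)).card := by
        rw [hS, card_image_of_injective _ (fun a b hab => by
          have : a - s = b - s := hab
          linarith)]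
      have hcA : A.card = k + 3 := by
        have hAe : A = insert 0 (insert g (A.filter (fun a => M - g - a ∈ A))) := by
          ext a
          rw [mem_insert, mem_insert, mem_filter]
          constructor
          · intro ha
            rcases hcase a ha with h3 | h3 | h3
            · exact Or.inl h3
            · exact Or.inr (Or.inl h3)
            · exact Or.inr (Or.inr h3)
          · rintro (rfl | rfl | h3)
            · exact h.z
            · exact h.gA
            · exact h3.1
        have e1 : g ∉ A.filter (fun a => M - g - a ∈ A) := by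
          rw [mem_filter]
          exact hTg
        have e2 : (0 : ℤ) ∉ insert g (A.filter (fun a => M - g - a ∈ A)) := by
          rw [mem_insert, mem_filter]
          rintro (h3 | h3)
          · omega
          · have := (hTb 0 h3).1
            omega
        rw [hAe, card_insert_of_notMem e2, card_insert_of_notMem e1, ← hcS, hcT]
      have hmem : ∀ a, a ∈ A ↔ (a = 0 ∨ a = g ∨ ∃ j : ℕ, j ≤ k ∧ a = j * s + s) := by
        intro a
        constructor
        · intro ha
          rcases hcase a ha with h3 | h3 | h3
          · exact Or.inl h3
          · exact Or.inr (Or.inl h3)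
          · right; right
            obtain ⟨j, hj, hj2⟩ := (hk (a - s)).1 (by rw [hSm, sub_add_cancel]; exact h3)
            exact ⟨j, hj, by linarith⟩
        · rintro (rfl | rfl | ⟨j, hj, rfl⟩)
          · exact h.z
          · exact h.gA
          · exact ((hSm _).1 ((hk (j * s)).2 ⟨j, hj, rfl⟩)).1
      rw [hcA] at h1 h2 ⊢
      push_cast at h1 h2
      have hs5 : s < 5 := by
        by_contra h5
        push Not at h5
        have : ((k : ℤ) + 2) * 5 ≤ (k + 2) * s := mul_le_mul_of_nonneg_left h5 (by omega)
        omega
      have hs2 : 2 ≤ s := by omega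
      interval_cases s
      · omega
      · -- s = 3
        have hg2 : g = 2 := by omega
        subst hg2
        right; left
        refine ⟨3, 2, Or.inr rfl, Or.inr (by push_cast; linarith), ?_⟩
        intro a
        rw [hmem]
        constructor
        · rintro (rfl | rfl | ⟨j, hj, rfl⟩)
          · left; exact ⟨0, by omega, by simp⟩
          · right; rfl
          · left; exact ⟨j + 1, by omega, by push_cast; ring⟩
        · rintro (⟨j, hj, rfl⟩ | rfl)
          · rcases Nat.eq_zero_or_pos j with rfl | hj0
            · left; simp
            · right; right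
              refine ⟨j - 1, by omega, ?_⟩
              push_cast [Nat.cast_sub hj0]
              ring
          · right; left; rfl
      · -- s = 4
        have hg2 : g = 2 := by omega
        subst hg2
        left
        intro a ha
        rcases (hmem a).1 ha with rfl | rfl | ⟨j, hj, rfl⟩ <;> omega

end ClsL

end Pool.Agent.TH533.Q
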