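import Pool.Agent.TH533.Q.Class1

set_option autoImplicit false

/-!
Classification of the set of occupied diagonals, third case and conclusion.
-/

namespace Pool.Agent.TH533.Q

open Finset

namespace ClsL

variable {M g : ℤ} {r : ℕ} {A : Finset ℤ}

/-- case r ≥ 2 -/
lemma concl2 (h : ClsL M g r A) (hr : 2 ≤ r) (hM : 2 ∣ M) (h1 : 3 * (A.card : ℤ) - 1 ≤ M)
    (h2 : M ≤ 4 * (A.card : ℤ) - 2) : Concl M A.card A := by
  classical
  have hg := h.hg
  have hgM := h.hgM
  have h2g : 2 * g ∈ A := by
    have := h.mulA hr
    exact_mod_cast this
  have star : ∀ t, T M g A t → t = M - g - (r + 1) * g ∨ t = (r + 1) * g ∨ t = (r + 2) * g ∨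
      T M g A (t - 2 * g) := by
    intro t ht
    have hb := h.T_pos ht
    have hng : t ≠ g := by
      rintro rfl
      exact h.notT (j := 1) (by omega) (by rw [Nat.cast_one, one_mul]; exact ht)
    rcases h.ii t ht.1 (2 * g) h2g with (h4 | h4) | (h4 | h4)
    · rcases h.cases h4 with ⟨j, hj, hj2⟩ | h5
      · have h6 : t = ((j + 2 : ℕ) : ℤ) * g := by push_cast; linarith
        have h7 : r < j + 2 := by
          by_contra hc
          exact h.notT (j := j + 2) (by omega) (by rw [← h6]; exact ht)
        have h8 : j + 1 = r ∨ j = r := by omega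
        rcases h8 with h8 | h8
        · right; left
          rw [h6, ← h8]; push_cast; ring
        · right; right; left
          rw [h6, ← h8]; push_cast; ring
      · right; right; right; exact h5
    · exfalso
      have h5 := (h.rA _ h4).1
      by_cases h6 : 2 * g - t = 0
      · exact h.notT (j := 2) hr (by
          have : ((2 : ℕ) : ℤ) * g = t := by push_cast; linarith
          rw [this]; exact ht)
      · have := (h.bd _ h4 h6).1
        omega
    · have e : M - (t + 2 * g) = M - g - t - g := by ring
      rw [e] at h4
      rcases h.cases h4 with ⟨j, hj, hj2⟩ | h5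
      · have h6 : M - g - t = ((j + 1 : ℕ) : ℤ) * g := by push_cast; linarith
        have h7 : r < j + 1 := by
          by_contra hc
          exact h.notT (j := j + 1) (by omega) (by rw [← h6]; exact T_refl ht)
        have h8 : j = r := by omega
        left
        rw [h8] at h6
        push_cast at h6
        linarith
      · exfalso
        have := h.T1 h5
        rw [sub_add_cancel] at this
        exact this ht.2
    · exfalso
      have h5 := (h.rA _ h4).1
      have h6 : M - g - t = g := by omega
      exact h.notT (j := 1) (by omega) (by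
        rw [Nat.cast_one, one_mul]
        have := T_refl ht
        rwa [h6] at this)
  by_cases hne : ∃ a, T M g A a
  swap
  · -- T empty
    push Not at hne
    have hA : ∀ a, a ∈ A ↔ ∃ j : ℕ, j ≤ r ∧ a = j * g := by
      intro a
      constructor
      · intro ha
        rcases h.cases ha with h3 | h3
        · exact h3
        · exact absurd h3 (hne a)
      · rintro ⟨j, hj, rfl⟩
        exact h.mulA hj
    have hc : A.card = r + 1 := ladder_card A g hg r hA
    rw [hc] at h1 h2 ⊢
    push_cast at h1 h2
    have hrg := (h.bd _ (h.mulA (le_refl r)) (by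
      have : (0 : ℤ) < r := by omega
      positivity)).2
    have hg3 : g < 4 := by
      by_contra h5
      push Not at h5
      have : ((r : ℤ) + 1) * 4 ≤ (r + 1) * g := mul_le_mul_of_nonneg_left h5 (by omega)
      linarith
    have hg' : g = 1 ∨ g = 2 ∨ g = 3 := by omega
    have gen : (g = 1 ∨ g = 3) → Concl M (r + 1) A := by
      intro hg13
      right; left
      refine ⟨g, r * g, hg13, Or.inl (by push_cast; ring), ?_⟩
      intro a
      rw [hA]
      constructor
      · rintro ⟨j, hj, rfl⟩
        by_cases h3 : j = r
        · right; rw [h3]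
        · left; exact ⟨j, by omega, rfl⟩
      · rintro (⟨j, hj, rfl⟩ | rfl)
        · exact ⟨j, by omega, rfl⟩
        · exact ⟨r, le_rfl, rfl⟩
    rcases hg' with h3 | h3 | h3
    · exact gen (Or.inl h3)
    · left
      intro a ha
      obtain ⟨j, -, rfl⟩ := (hA a).1 ha
      rw [h3]
      exact Dvd.intro_left _ rfl
    · exact gen (Or.inr h3)
  obtain ⟨t0, ht0⟩ := hne
  by_cases hb1 : T M g A ((r + 1) * g)
  swap
  · -- (a)
    left
    have hb2 : ¬ T M g A (M - g - (r + 1) * g) := by
      intro h3
      have := T_refl h3
      rw [sub_sub_cancel] at this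
      exact hb1 this
    have chain : ∀ n : ℕ, ∀ t, T M g A t → t.toNat ≤ n → ∃ j : ℕ, t = (r + 2 + 2 * j) * g := by
      intro n
      induction n with
      | zero =>
        intro t ht hn
        have := (h.T_pos ht).1
        omega
      | succ n ih =>
        intro t ht hn
        have hp := (h.T_pos ht).1
        rcases star t ht with h3 | h3 | h3 | h3
        · exact absurd (by rw [← h3]; exact ht) hb2
        · exact absurd (by rw [← h3]; exact ht) hb1
        · exact ⟨0, by rw [h3]; push_cast; ring⟩
        · obtain ⟨j, hj⟩ := ih _ h3 (by omega)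
          exact ⟨j + 1, by push_cast; linarith⟩
    obtain ⟨j1, hj1⟩ := chain _ t0 ht0 le_rfl
    obtain ⟨j2, hj2⟩ := chain _ _ (T_refl ht0) le_rfl
    have hMg : M = (2 * ((r : ℤ) + 2 + j1 + j2) + 1) * g := by linarith
    apply even_of_mult hM _ ⟨_, hMg⟩
    intro a ha
    rcases h.cases ha with ⟨j, hj, rfl⟩ | h3
    · exact Dvd.intro_left _ rfl
    · obtain ⟨j, hj⟩ := chain _ a h3 le_rfl
      rw [hj]
      exact Dvd.intro_left _ rfl
  · -- (b)
    have hb2 := T_refl hb1
    have chain : ∀ n : ℕ, ∀ t, T M g A t → t.toNat ≤ n →
        ∃ j : ℕ, t = (r + 1) * g + 2 * g * j ∨ t = M - g - (r + 1) * g + 2 * g * j := by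
      intro n
      induction n with
      | zero =>
        intro t ht hn
        have := (h.T_pos ht).1
        omega
      | succ n ih =>
        intro t ht hn
        have hp := (h.T_pos ht).1
        rcases star t ht with h3 | h3 | h3 | h3
        · exact ⟨0, Or.inr (by rw [h3]; push_cast; ring)⟩
        · exact ⟨0, Or.inl (by rw [h3]; push_cast; ring)⟩
        · exfalso
          apply h.T1 hb1
          have e : ((r : ℤ) + 1) * g + g = t := by rw [h3]; ring
          rw [e]; exact ht.1
        · obtain ⟨j, hj⟩ := ih _ h3 (by omega)
          refine ⟨j + 1, ?_⟩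
          rcases hj with hj | hj
          · left; push_cast; linarith
          · right; push_cast; linarith
    by_cases hex : ∃ t, T M g A t ∧ t ≠ (r + 1) * g ∧ t ≠ M - g - (r + 1) * g
    · left
      obtain ⟨t, ht, hn1, hn2⟩ := hex
      have hc : ∃ c : ℤ, M - g - (r + 1) * g = (r + 1) * g + 2 * g * c := by
        obtain ⟨j1, hj1⟩ := chain _ t ht le_rfl
        obtain ⟨j2, hj2⟩ := chain _ _ (T_refl ht) le_rfl
        have hj1p : 0 < j1 := by
          rcases Nat.eq_zero_or_pos j1 with h3 | h3
          · exfalso
            rw [h3] at hj1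
            simp only [Nat.cast_zero, mul_zero, add_zero] at hj1
            tauto
          · exact h3
        have hj2p : 0 ≤ j2 := Nat.zero_le _
        have hpos : 0 < 2 * g * (j1 + j2 : ℤ) := by positivity
        rcases hj1 with hj1 | hj1 <;> rcases hj2 with hj2 | hj2
        · exact ⟨(j1 : ℤ) + j2, by linarith⟩
        · exfalso; linarith
        · exfalso; linarith
        · exact ⟨-((j1 : ℤ) + j2), by linarith⟩
      obtain ⟨c, hc⟩ := hc
      have hMg : M = (2 * ((r : ℤ) + 1 + c) + 1) * g := by linarith
      apply even_of_mult hM _ ⟨_, hMg⟩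
      intro a ha
      rcases h.cases ha with ⟨j, hj, rfl⟩ | h3
      · exact Dvd.intro_left _ rfl
      · obtain ⟨j, hj⟩ := chain _ a h3 le_rfl
        rcases hj with hj | hj
        · exact ⟨(r : ℤ) + 1 + 2 * j, by rw [hj]; ring⟩
        · exact ⟨(r : ℤ) + 1 + 2 * c + 2 * j, by rw [hj, hc]; ring⟩
    · push Not at hex
      by_cases hbb : ((r : ℤ) + 1) * g = M - g - (r + 1) * g
      · left
        have hMg : M = (2 * ((r : ℤ) + 1) + 1) * g := by linarith
        apply even_of_mult hM _ ⟨_, hMg⟩
        intro a ha
        rcases h.cases ha with ⟨j, hj, rfl⟩ | h3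
        · exact Dvd.intro_left _ rfl
        · have : a = (r + 1) * g := by
            by_contra hc
            exact hc ((hex a h3 hc).trans hbb.symm)
          rw [this]
          exact Dvd.intro_left _ rfl
      · -- A = {0, ..., (r+1) g} ∪ {b2}
        have hmem : ∀ a, a ∈ A ↔ ((∃ j : ℕ, j ≤ r + 1 ∧ a = j * g) ∨ a = M - (r + 2) * g) := by
          intro a
          constructor
          · intro ha
            rcases h.cases ha with ⟨j, hj, rfl⟩ | h3
            · left; exact ⟨j, by omega, rfl⟩
            · by_cases h4 : a = (r + 1) * g
              · left; exact ⟨r + 1, le_rfl, by rw [h4]; push_cast; ring⟩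
              · right
                rw [hex a h3 h4]; ring
          · rintro (⟨j, hj, rfl⟩ | rfl)
            · by_cases h4 : j = r + 1
              · have := hb1.1
                rw [h4]; exact_mod_cast this
              · exact h.mulA (by omega)
            · have := hb2.1
              have e : M - ((r : ℤ) + 2) * g = M - g - (r + 1) * g := by ring
              rw [e]; exact this
        set S : Finset ℤ := A.erase (M - (r + 2) * g) with hS
        have hbn : ∀ j : ℕ, j ≤ r + 1 → (j : ℤ) * g ≠ M - (r + 2) * g := by
          intro j hj heq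
          by_cases h4 : j = r + 1
          · apply hbb
            rw [h4] at heq
            push_cast at heq
            linarith
          · apply h.notT (j := j) (by omega)
            rw [heq]
            have e : M - ((r : ℤ) + 2) * g = M - g - (r + 1) * g := by ring
            rw [e]; exact hb2
        have hSm : ∀ a, a ∈ S ↔ ∃ j : ℕ, j ≤ r + 1 ∧ a = j * g := by
          intro a
          rw [hS, mem_erase, hmem]
          constructor
          · rintro ⟨h3, h4 | h4⟩
            · exact h4
            · exact absurd h4 h3
          · rintro ⟨j, hj, rfl⟩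
            exact ⟨hbn j hj, Or.inl ⟨j, hj, rfl⟩⟩
        have hc1 := ladder_card S g hg (r + 1) hSm
        have hc : A.card = r + 3 := by
          have h3 : M - ((r : ℤ) + 2) * g ∈ A := (hmem _).2 (Or.inr rfl)
          have h4 := card_erase_add_one h3
          rw [← h4, ← hS, hc1]
        rw [hc] at h1 h2 ⊢
        push_cast at h1 h2
        have hp := (h.T_pos hb2).1
        have hg3 : g < 4 := by
          by_contra h5
          push Not at h5
          have : ((r : ℤ) + 3) * 4 ≤ (r + 3) * g := mul_le_mul_of_nonneg_left h5 (by omega)
          linarith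
        have hg' : g = 1 ∨ g = 2 ∨ g = 3 := by omega
        have gen : (g = 1 ∨ g = 3) → Concl M (r + 3) A := by
          intro hg13
          right; left
          refine ⟨g, M - (r + 2) * g, hg13, Or.inr (by push_cast; ring), ?_⟩
          intro a
          rw [hmem]
          constructor
          · rintro (⟨j, hj, rfl⟩ | rfl)
            · left; exact ⟨j, by omega, rfl⟩
            · right; rfl
          · rintro (⟨j, hj, rfl⟩ | rfl)
            · left; exact ⟨j, by omega, rfl⟩
            · right; rfl
        rcases hg' with h3 | h3 | h3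
        · exact gen (Or.inl h3)
        · left
          intro a ha
          rcases (hmem a).1 ha with ⟨j, -, rfl⟩ | rfl
          · rw [h3]
            exact Dvd.intro_left _ rfl
          · rw [h3]
            exact dvd_sub hM (Dvd.intro_left _ rfl)
        · exact gen (Or.inr h3)

end ClsL

/-- classification of the possible sets of occupied diagonals -/
theorem Cls.concl {M g : ℤ} {A : Finset ℤ} (h : Cls M g A) (hgA : g ∈ A ∨ M - g ∈ A) (hM : 2 ∣ M)
    (h1 : 3 * (A.card : ℤ) - 1 ≤ M) (h2 : M ≤ 4 * (A.card : ℤ) - 2) : Concl M A.card A := by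
  have hg := h.hg
  have hgM := h.hgM
  have key : ∀ a ∈ A, a ≠ 0 → a - g ∈ A ∨ M - g - a ∈ A := by
    intro a ha h0
    have hb := h.bd a ha h0
    rcases hgA with h3 | h3
    · rcases h.ii a ha g h3 with (h4 | h4) | (h4 | h4)
      · exact Or.inl h4
      · have := (h.rA _ h4).1
        left
        have e : a - g = 0 := by omega
        rw [e]; exact h.z
      · right
        have e : M - g - a = M - (a + g) := by ring
        rw [e]; exact h4
      · have := (h.rA _ h4).1
        right
        have e : M - g - a = 0 := by omega
        rw [e]; exact h.z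
    · rcases h.ii a ha _ h3 with (h4 | h4) | (h4 | h4)
      · have := (h.rA _ h4).1
        right
        have e : M - g - a = 0 := by omega
        rw [e]; exact h.z
      · exact Or.inr h4
      · have := (h.rA _ h4).1
        left
        have e : a - g = 0 := by omega
        rw [e]; exact h.z
      · left
        have e : a - g = a + (M - g) - M := by ring
        rw [e]; exact h4
  have hp : Pair M g A A := ⟨hg, h.bd, h.bd, h.z, h.z, rfl, key, key, h.i⟩
  by_cases hN : M - g ∈ A
  · exact h.conclH hN (hp.caseH hN) hM h1 h2
  · have hgA' : g ∈ A := by tauto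
    obtain ⟨r, hr, -⟩ := hp.caseL hN hN
    have hL : ClsL M g r A := ⟨h, hgA', hN, hr⟩
    by_cases hr0 : r = 0
    · subst hr0
      exact hL.concl0 hM h1 h2
    · by_cases hr1 : r = 1
      · subst hr1
        exact hL.concl1 hM h1 h2
      · exact hL.concl2 (by omega) hM h1 h2

end Pool.Agent.TH533.Q
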