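import Pool.Agent.TH533.Q.Class2
import Pool.Agent.H642R3.Q.Box

set_option autoImplicit false

/-!
From a dominating set of `m` queens on the board of size `2m+1` to the combinatorial data.
-/

namespace Pool.Agent.TH533.Q

open Finset
open Pool.Agent.H642R3.Q (cnt Dom cnt_pos_iff cnt_sum cnt_congr)

variable {ι : Type} {m : ℕ} {D : Finset ι} {X Y : ι → ℤ} {a c M : ℤ}

lemma sum_occ (D : Finset ι) (f : ι → ℤ) (W : Finset ℤ) (h : ∀ w ∈ W, cnt D f w ≤ 1) (φ : ℤ → ℤ) :
    ∑ q ∈ D.filter (fun q => f q ∈ W), φ (f q) = ∑ t ∈ W.filter (fun t => 0 < cnt D f t), φ t := by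
  classical
  rw [← sum_fiberwise_of_maps_to (s := D.filter (fun q => f q ∈ W)) (t := W) (g := f)
    (fun q hq => (mem_filter.1 hq).2), sum_filter]
  apply sum_congr rfl
  intro w hw
  have h1 : (D.filter (fun q => f q ∈ W)).filter (fun q => f q = w) = D.filter (fun q => f q = w) := by
    ext q
    simp only [mem_filter]
    constructor
    · rintro ⟨⟨h1, -⟩, h2⟩; exact ⟨h1, h2⟩
    · rintro ⟨h1, h2⟩; exact ⟨⟨h1, by rw [h2]; exact hw⟩, h2⟩
  rw [h1]
  have h2 : ∑ q ∈ D.filter (fun q => f q = w), φ (f q) = (cnt D f w : ℤ) * φ w := by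
    rw [sum_congr rfl (fun q hq => by rw [(mem_filter.1 hq).2]) (g := fun _ => φ w), sum_const,
      nsmul_eq_mul]
    rfl
  rw [h2]
  have h3 := h w hw
  split_ifs with h4
  · have : cnt D f w = 1 := by omega
    rw [this]; simp
  · have : cnt D f w = 0 := by omega
    rw [this]; simp

lemma card_occ (D : Finset ι) (f : ι → ℤ) (W : Finset ℤ) (h : ∀ w ∈ W, cnt D f w ≤ 1) :
    (W.filter (fun t => 0 < cnt D f t)).card = (D.filter (fun q => f q ∈ W)).card := by
  have := sum_occ D f W h (fun _ => 1)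
  rw [sum_const, sum_const, nsmul_eq_mul, nsmul_eq_mul, mul_one, mul_one] at this
  exact_mod_cast this.symm

/-- difference coordinate -/
def f1 (X Y : ι → ℤ) (a c : ℤ) (q : ι) : ℤ := (Y q - c) - (X q - a)
/-- negated difference coordinate -/
def f2 (X Y : ι → ℤ) (a c : ℤ) (q : ι) : ℤ := (X q - a) - (Y q - c)
/-- sum coordinate -/
def f3 (X Y : ι → ℤ) (a c M : ℤ) (q : ι) : ℤ := (X q - a) + (Y q - c) - M
/-- negated sum coordinate -/
def f4 (X Y : ι → ℤ) (a c M : ℤ) (q : ι) : ℤ := M - ((X q - a) + (Y q - c))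

/-- the four counting identities -/
lemma four (h : Dom m D X Y) (b : Dom.Box m D X Y a c M) : ∀ t, 0 ≤ t → t ≤ M →
    (cnt D Y (c + t) + cnt D (f1 X Y a c) t + cnt D (f4 X Y a c M) (M - t) = 1 ∧
     cnt D Y (c + t) + cnt D (f2 X Y a c) (M - t) + cnt D (f3 X Y a c M) t = 1) ∧
    (cnt D X (a + t) + cnt D (f2 X Y a c) t + cnt D (f4 X Y a c M) (M - t) = 1 ∧
     cnt D X (a + t) + cnt D (f1 X Y a c) (M - t) + cnt D (f3 X Y a c M) t = 1) := by
  intro t h0 h1
  have r := (h.box_row b).1 t h0 h1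
  have s := (h.swap.box_row b.swap).1 t h0 h1
  have e1 : cnt D (fun q => (Y q - c) - (X q - a)) t = cnt D (f1 X Y a c) t := rfl
  have e2 : cnt D (fun q => (X q - a) + (Y q - c) - M) (t - M) = cnt D (f4 X Y a c M) (M - t) :=
    cnt_congr D (fun q _ => by unfold f4; constructor <;> intro hx <;> omega)
  have e3 : cnt D (fun q => (Y q - c) - (X q - a)) (t - M) = cnt D (f2 X Y a c) (M - t) :=
    cnt_congr D (fun q _ => by unfold f2; constructor <;> intro hx <;> omega)
  have e4 : cnt D (fun q => (X q - a) + (Y q - c) - M) t = cnt D (f3 X Y a c M) t := rfl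
  have e5 : cnt D (fun q => (X q - a) - (Y q - c)) t = cnt D (f2 X Y a c) t := rfl
  have e6 : cnt D (fun q => (Y q - c) + (X q - a) - M) (t - M) = cnt D (f4 X Y a c M) (M - t) :=
    cnt_congr D (fun q _ => by unfold f4; constructor <;> intro hx <;> omega)
  have e7 : cnt D (fun q => (X q - a) - (Y q - c)) (t - M) = cnt D (f1 X Y a c) (M - t) :=
    cnt_congr D (fun q _ => by unfold f1; constructor <;> intro hx <;> omega)
  have e8 : cnt D (fun q => (Y q - c) + (X q - a) - M) t = cnt D (f3 X Y a c M) t :=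
    cnt_congr D (fun q _ => by unfold f3; constructor <;> intro hx <;> omega)
  rw [e1, e2, e3, e4] at r
  rw [e5, e6, e7, e8] at s
  exact ⟨r, s⟩

/-- occupied values in `[0,M]` -/
noncomputable def SP (D : Finset ι) (f : ι → ℤ) (M : ℤ) : Finset ℤ := (Icc 0 M).filter (fun t => 0 < cnt D f t)

lemma mem_SP {f : ι → ℤ} {t : ℤ} : t ∈ SP D f M ↔ (0 ≤ t ∧ t ≤ M) ∧ ∃ q ∈ D, f q = t := by
  unfold SP
  rw [mem_filter, mem_Icc, cnt_pos_iff]

/-- ranges -/
lemma rng (h : Dom m D X Y) (b : Dom.Box m D X Y a c M) : ∀ q ∈ D,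
    (-M < f1 X Y a c q ∧ f1 X Y a c q < M) ∧ (-M < f2 X Y a c q ∧ f2 X Y a c q < M) ∧
    (-M < f3 X Y a c M q ∧ f3 X Y a c M q < M) ∧ (-M < f4 X Y a c M q ∧ f4 X Y a c M q < M) := by
  intro q hq
  have := (h.box_row b).2.1 q hq
  unfold f1 f2 f3 f4
  omega

lemma cnt_reflect (D : Finset ι) (f : ι → ℤ) (M t : ℤ) :
    cnt D f (M - t) = cnt D (fun q => M - f q) t :=
  cnt_congr D (fun q _ => by constructor <;> intro hx <;> omega)

/-- cardinalities -/
lemma cards (h : Dom m D X Y) (b : Dom.Box m D X Y a c M) :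
    ∃ p : ℕ, m + 1 = 2 * p ∧ (SP D (f1 X Y a c) M).card = p ∧ (SP D (f2 X Y a c) M).card = p ∧
      (SP D (f3 X Y a c M) M).card = p ∧ (SP D (f4 X Y a c M) M).card = p ∧
      (0 : ℤ) ∈ SP D (f1 X Y a c) M ∧ (0 : ℤ) ∈ SP D (f3 X Y a c M) M := by
  classical
  have hM := b.hδ
  have F := four h b
  have R := rng h b
  have c1 : ∀ w ∈ Icc 0 M, cnt D (f1 X Y a c) w ≤ 1 := by
    intro w hw
    rw [mem_Icc] at hw
    have := (F w hw.1 hw.2).1.1
    omega
  have c2 : ∀ w ∈ Icc 0 M, cnt D (f2 X Y a c) w ≤ 1 := by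
    intro w hw
    rw [mem_Icc] at hw
    have := (F w hw.1 hw.2).2.1
    omega
  have c3 : ∀ w ∈ Icc 0 M, cnt D (f3 X Y a c M) w ≤ 1 := by
    intro w hw
    rw [mem_Icc] at hw
    have := (F w hw.1 hw.2).2.2
    omega
  have c4 : ∀ w ∈ Icc 0 M, cnt D (f4 X Y a c M) w ≤ 1 := by
    intro w hw
    rw [mem_Icc] at hw
    have := (F (M - w) (by omega) (by omega)).2.1
    rw [sub_sub_cancel] at this
    omega
  have k1 := card_occ D _ _ c1
  have k2 := card_occ D _ _ c2
  have k3 := card_occ D _ _ c3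
  have k4 := card_occ D _ _ c4
  change (SP D (f1 X Y a c) M).card = _ at k1
  change (SP D (f2 X Y a c) M).card = _ at k2
  change (SP D (f3 X Y a c M) M).card = _ at k3
  change (SP D (f4 X Y a c M) M).card = _ at k4
  -- sums of the identities
  have sumrefl : ∀ f : ι → ℤ, ∑ t ∈ Icc 0 M, cnt D f (M - t) = (D.filter (fun q => f q ∈ Icc 0 M)).card := by
    intro f
    rw [sum_congr rfl (fun t _ => cnt_reflect D f M t), cnt_sum]
    congr 1
    apply filter_congr
    intro q _
    simp only [mem_Icc]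
    omega
  have sumY : ∑ t ∈ Icc 0 M, cnt D Y (c + t) = (D.filter (fun q => Y q ∈ Icc c (c + M))).card := by
    have e : ∀ t ∈ Icc 0 M, cnt D Y (c + t) = cnt D (fun q => Y q - c) t := by
      intro t _
      exact cnt_congr D (fun q _ => by constructor <;> intro hx <;> omega)
    rw [sum_congr rfl e, cnt_sum]
    congr 1
    apply filter_congr
    intro q _
    simp only [mem_Icc]
    omega
  have sumX : ∑ t ∈ Icc 0 M, cnt D X (a + t) = (D.filter (fun q => X q ∈ Icc a (a + M))).card := by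
    have e : ∀ t ∈ Icc 0 M, cnt D X (a + t) = cnt D (fun q => X q - a) t := by
      intro t _
      exact cnt_congr D (fun q _ => by constructor <;> intro hx <;> omega)
    rw [sum_congr rfl e, cnt_sum]
    congr 1
    apply filter_congr
    intro q _
    simp only [mem_Icc]
    omega
  have wY := (h.box_row b).2.2.2
  have wX := (h.swap.box_row b.swap).2.2.2
  have cI : ((Icc 0 M).card : ℤ) = M + 1 := by rw [Int.card_Icc]; omega
  have s1 : ∑ t ∈ Icc 0 M, (cnt D Y (c + t) + cnt D (f1 X Y a c) t + cnt D (f4 X Y a c M) (M - t)) =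
      (Icc 0 M).card := by
    rw [card_eq_sum_ones]
    exact sum_congr rfl (fun t ht => (F t (mem_Icc.1 ht).1 (mem_Icc.1 ht).2).1.1)
  have s2 : ∑ t ∈ Icc 0 M, (cnt D Y (c + t) + cnt D (f2 X Y a c) (M - t) + cnt D (f3 X Y a c M) t) =
      (Icc 0 M).card := by
    rw [card_eq_sum_ones]
    exact sum_congr rfl (fun t ht => (F t (mem_Icc.1 ht).1 (mem_Icc.1 ht).2).1.2)
  have s3 : ∑ t ∈ Icc 0 M, (cnt D X (a + t) + cnt D (f2 X Y a c) t + cnt D (f4 X Y a c M) (M - t)) =
      (Icc 0 M).card := by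
    rw [card_eq_sum_ones]
    exact sum_congr rfl (fun t ht => (F t (mem_Icc.1 ht).1 (mem_Icc.1 ht).2).2.1)
  have s4 : ∑ t ∈ Icc 0 M, (cnt D X (a + t) + cnt D (f1 X Y a c) (M - t) + cnt D (f3 X Y a c M) t) =
      (Icc 0 M).card := by
    rw [card_eq_sum_ones]
    exact sum_congr rfl (fun t ht => (F t (mem_Icc.1 ht).1 (mem_Icc.1 ht).2).2.2)
  rw [sum_add_distrib, sum_add_distrib, sumY, sumrefl, cnt_sum, ← k1, ← k4] at s1
  rw [sum_add_distrib, sum_add_distrib, sumY, sumrefl, cnt_sum, ← k2, ← k3] at s2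
  rw [sum_add_distrib, sum_add_distrib, sumX, sumrefl, cnt_sum, ← k2, ← k4] at s3
  rw [sum_add_distrib, sum_add_distrib, sumX, sumrefl, cnt_sum, ← k1, ← k3] at s4
  -- total counts
  have t1 : (D.filter (fun q => f1 X Y a c q ∈ Icc 0 M)).card +
      (D.filter (fun q => f2 X Y a c q ∈ Icc 0 M)).card = m + cnt D (f1 X Y a c) 0 := by
    rw [← card_union_add_card_inter, ← filter_or, ← filter_and, ← h.card]
    congr 1
    · congr 1
      apply filter_true_of_mem
      intro q hq
      have := R q hq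
      simp only [mem_Icc]
      unfold f1 f2 at *
      omega
    · unfold cnt
      congr 1
      apply filter_congr
      intro q hq
      have := R q hq
      simp only [mem_Icc]
      unfold f1 f2 at *
      omega
  have t3 : (D.filter (fun q => f3 X Y a c M q ∈ Icc 0 M)).card +
      (D.filter (fun q => f4 X Y a c M q ∈ Icc 0 M)).card = m + cnt D (f3 X Y a c M) 0 := by
    rw [← card_union_add_card_inter, ← filter_or, ← filter_and, ← h.card]
    congr 1
    · congr 1
      apply filter_true_of_mem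
      intro q hq
      have := R q hq
      simp only [mem_Icc]
      unfold f3 f4 at *
      omega
    · unfold cnt
      congr 1
      apply filter_congr
      intro q hq
      have := R q hq
      simp only [mem_Icc]
      unfold f3 f4 at *
      omega
  rw [← k1, ← k2] at t1
  rw [← k3, ← k4] at t3
  have z1 := c1 0 (by rw [mem_Icc]; omega)
  have z3 := c3 0 (by rw [mem_Icc]; omega)
  have y1 : 0 < cnt D (f1 X Y a c) 0 := by omega
  have y3 : 0 < cnt D (f3 X Y a c M) 0 := by omega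
  refine ⟨(SP D (f1 X Y a c) M).card, by omega, rfl, by omega, by omega, by omega, ?_, ?_⟩
  · unfold SP
    rw [mem_filter, mem_Icc]
    exact ⟨by omega, y1⟩
  · unfold SP
    rw [mem_filter, mem_Icc]
    exact ⟨by omega, y3⟩

/-- the system of sets attached to a tight configuration -/
theorem sys (h : Dom m D X Y) (b : Dom.Box m D X Y a c M) :
    ∃ p : ℕ, m + 1 = 2 * p ∧ Sys M p (SP D (f1 X Y a c) M) (SP D (f2 X Y a c) M)
      (SP D (f3 X Y a c M) M) (SP D (f4 X Y a c M) M) := by
  classical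
  obtain ⟨p, hp, p1, p2, p3, p4, z1, z3⟩ := cards h b
  have hM := b.hδ
  have F := four h b
  have R := rng h b
  have z2 : (0 : ℤ) ∈ SP D (f2 X Y a c) M := by
    rw [mem_SP] at z1 ⊢
    obtain ⟨h1, q, hq, hq2⟩ := z1
    exact ⟨h1, q, hq, by unfold f1 at hq2; unfold f2; omega⟩
  have z4 : (0 : ℤ) ∈ SP D (f4 X Y a c M) M := by
    rw [mem_SP] at z3 ⊢
    obtain ⟨h1, q, hq, hq2⟩ := z3
    exact ⟨h1, q, hq, by unfold f3 at hq2; unfold f4; omega⟩
  have P : ∀ (f : ι → ℤ) (t : ℤ), 0 ≤ t → t ≤ M → (t ∈ SP D f M ↔ 0 < cnt D f t) := by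
    intro f t h0 h1
    unfold SP
    rw [mem_filter, mem_Icc]
    tauto
  have rr : ∀ (f : ι → ℤ), (∀ q ∈ D, -M < f q ∧ f q < M) → ∀ t ∈ SP D f M, 0 ≤ t ∧ t < M := by
    intro f hf t ht
    rw [mem_SP] at ht
    obtain ⟨h1, q, hq, rfl⟩ := ht
    have := hf q hq
    omega
  have r1 := rr (f1 X Y a c) (fun q hq => (R q hq).1)
  have r2 := rr (f2 X Y a c) (fun q hq => (R q hq).2.1)
  have r3 := rr (f3 X Y a c M) (fun q hq => (R q hq).2.2.1)
  have r4 := rr (f4 X Y a c M) (fun q hq => (R q hq).2.2.2)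
  refine ⟨p, hp, r1, r2, r3, r4, z1, z2, z3, z4, p1, p2, p3, p4, ?_, ?_, ?_, ?_, ?_, ?_, ?_⟩
  · intro t ht ht2
    have hr := r1 t ht
    rw [P _ t hr.1 hr.2.le] at ht
    rw [P _ (M - t) (by omega) (by omega)] at ht2
    have := (F t hr.1 hr.2.le).1.1
    omega
  · intro t ht ht2
    have hr := r2 t ht
    rw [P _ t hr.1 hr.2.le] at ht
    rw [P _ (M - t) (by omega) (by omega)] at ht2
    have := (F (M - t) (by omega) (by omega)).1.2
    rw [sub_sub_cancel] at this
    omega
  · intro t ht ht2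
    have hr := r2 t ht
    rw [P _ t hr.1 hr.2.le] at ht
    rw [P _ (M - t) (by omega) (by omega)] at ht2
    have := (F t hr.1 hr.2.le).2.1
    omega
  · intro t ht ht2
    have hr := r1 t ht
    rw [P _ t hr.1 hr.2.le] at ht
    rw [P _ (M - t) (by omega) (by omega)] at ht2
    have := (F (M - t) (by omega) (by omega)).2.2
    rw [sub_sub_cancel] at this
    omega
  · intro t h0 h1
    rw [P _ t h0 h1, P _ t h0 h1, P _ (M - t) (by omega) (by omega), P _ (M - t) (by omega) (by omega)]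
    have := (F t h0 h1).1
    omega
  · intro t h0 h1
    rw [P _ t h0 h1, P _ t h0 h1, P _ (M - t) (by omega) (by omega), P _ (M - t) (by omega) (by omega)]
    have := (F t h0 h1).2
    omega
  · intro i j hi hj
    have hi1 : 0 ≤ i ∧ i ≤ M := by
      rcases hi with hh | hh | hh | hh
      · have := r2 _ hh; omega
      · have := r4 _ hh; omega
      · have := r1 _ hh; omega
      · have := r3 _ hh; omega
    have hj1 : 0 ≤ j ∧ j ≤ M := by
      rcases hj with hh | hh | hh | hh
      · have := r1 _ hh; omega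
      · have := r4 _ hh; omega
      · have := r2 _ hh; omega
      · have := r3 _ hh; omega
    rw [P _ i hi1.1 hi1.2, P _ i hi1.1 hi1.2, P _ (M - i) (by omega) (by omega),
      P _ (M - i) (by omega) (by omega)] at hi
    rw [P _ j hj1.1 hj1.2, P _ j hj1.1 hj1.2, P _ (M - j) (by omega) (by omega),
      P _ (M - j) (by omega) (by omega)] at hj
    have Fi := (F i hi1.1 hi1.2).2
    have Fj := (F j hj1.1 hj1.2).1
    have ei : cnt D X (a + i) = 0 := by omega
    have ej : cnt D Y (c + j) = 0 := by omega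
    have ei' : ∀ q ∈ D, X q ≠ a + i := by
      intro q hq he
      have := (cnt_pos_iff D X (a + i)).2 ⟨q, hq, he⟩
      omega
    have ej' : ∀ q ∈ D, Y q ≠ c + j := by
      intro q hq he
      have := (cnt_pos_iff D Y (c + j)).2 ⟨q, hq, he⟩
      omega
    have b1 := b.a0
    have b2 := b.aδ
    have b3 := b.c0
    have b4 := b.cδ
    obtain ⟨q, hq, hh⟩ := h.dom (a + i) (c + j) (by omega) (by omega) (by omega) (by omega)
    have Rq := R q hq
    rcases hh with hh | hh | hh | hh
    · exact absurd hh.symm (ei' q hq)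
    · exact absurd hh.symm (ej' q hq)
    · left
      by_cases hs : 0 ≤ j - i
      · left
        rw [mem_SP]
        exact ⟨by omega, q, hq, by unfold f1; omega⟩
      · right
        rw [mem_SP]
        exact ⟨by omega, q, hq, by unfold f2; omega⟩
    · right
      by_cases hs : 0 ≤ i + j - M
      · left
        rw [mem_SP]
        exact ⟨by omega, q, hq, by unfold f3; omega⟩
      · right
        rw [mem_SP]
        exact ⟨by omega, q, hq, by unfold f4; omega⟩

end Pool.Agent.TH533.Q
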