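import Pool.Agent.TH533.Q.Moment
import Pool.Agent.H642R3.Q.Halved

set_option autoImplicit false

/-!
Elimination of all shapes.
-/

namespace Pool.Agent.TH533.Q

open Finset
open Pool.Agent.H642R3.Q (cnt Dom cnt_pos_iff cnt_sum cnt_congr halved_main)

variable {ι : Type} {m p : ℕ} {D : Finset ι} {X Y : ι → ℤ} {a c M : ℤ} {A : Finset ℤ}

namespace Tight

lemma injY (T : Tight m p D X Y a c M A) : ∀ q ∈ D, ∀ q' ∈ D, Y q = Y q' → q = q' := by
  intro q hq q' hq' h
  have h1 := T.uY (Y q) (by rw [mem_Icc]; exact T.dom.rY q hq)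
  unfold cnt at h1
  rw [card_le_one] at h1
  exact h1 q (mem_filter.2 ⟨hq, rfl⟩) q' (mem_filter.2 ⟨hq', h.symm⟩)

lemma occY (T : Tight m p D X Y a c M A) : ∀ q ∈ D, Y q - c ∉ A ∧ M - (Y q - c) ∉ A := by
  intro q hq
  have h1 := T.eY (Y q) (by rw [mem_Icc]; exact T.dom.rY q hq)
  have h2 : 0 < cnt D Y (Y q) := (cnt_pos_iff D Y (Y q)).2 ⟨q, hq, rfl⟩
  constructor
  · intro h3
    have := h1.2 (Or.inl h3)
    omega
  · intro h3
    have := h1.2 (Or.inr h3)
    omega

lemma occX (T : Tight m p D X Y a c M A) : ∀ q ∈ D, X q - a ∉ A ∧ M - (X q - a) ∉ A := T.swap.occY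

/-- a row which is not one of the marked ones is occupied -/
lemma fullY (T : Tight m p D X Y a c M A) {y : ℤ} (h0 : 0 ≤ y) (h1 : y ≤ 2 * m) (h2 : y - c ∉ A)
    (h3 : M - (y - c) ∉ A) : ∃ q ∈ D, Y q = y := by
  have h4 := T.eY y (by rw [mem_Icc]; exact ⟨h0, h1⟩)
  rw [← cnt_pos_iff]
  by_contra h5
  have := h4.1 (by omega)
  tauto

lemma fullX (T : Tight m p D X Y a c M A) {x : ℤ} (h0 : 0 ≤ x) (h1 : x ≤ 2 * m) (h2 : x - a ∉ A)
    (h3 : M - (x - a) ∉ A) : ∃ q ∈ D, X q = x := T.swap.fullY h0 h1 h2 h3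

/-- the even case -/
theorem even_case (T : Tight m p D X Y a c M A) (hE : ∀ t ∈ A, (2 : ℤ) ∣ t) (h3 : p ≠ 3) : False := by
  classical
  have hM2 := T.evenM
  have hp2 := T.p2
  have hM0 := T.box.hδ
  have hd1 : Disjoint A (A.image (fun t => M - t)) := by
    rw [disjoint_left]
    intro y h1 h2
    obtain ⟨t, ht, h3⟩ := mem_image.1 h2
    exact T.iA y h1 t ht (by linarith)
  have hinj : Function.Injective (fun t : ℤ => M - t) := by
    intro x y hxy
    have : M - x = M - y := hxy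
    linarith
  have hc1 : (A ∪ A.image (fun t => M - t)).card = 2 * p := by
    rw [card_union_of_disjoint hd1, card_image_of_injective _ hinj, T.cA]; ring
  have hsub : A ∪ A.image (fun t => M - t) ⊆ (Icc 0 (M / 2)).image (fun j => 2 * j) := by
    intro t ht
    rw [mem_image]
    rcases mem_union.1 ht with h1 | h1
    · have h4 := T.rA t h1
      have h5 := hE t h1
      exact ⟨t / 2, by rw [mem_Icc]; omega, by omega⟩
    · obtain ⟨s, hs, rfl⟩ := mem_image.1 h1
      have h4 := T.rA s hs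
      have h5 := hE s hs
      exact ⟨(M - s) / 2, by rw [mem_Icc]; omega, by omega⟩
  have hc2 : ((Icc 0 (M / 2)).image (fun j : ℤ => 2 * j)).card = (M / 2 + 1).toNat := by
    rw [card_image_of_injective _ (by
      intro x y hxy
      have : 2 * x = 2 * y := hxy
      linarith), Int.card_Icc]
    congr 1
    ring
  have hc3 := card_le_card hsub
  rw [hc1, hc2] at hc3
  have hup := T.upM
  have hMeq : M = 4 * (p : ℤ) - 2 := by omega
  have heq := eq_of_subset_of_card_le hsub (by rw [hc1, hc2]; omega)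
  have hmp := T.hp
  have b1 := T.box.a0
  have b2 := T.box.aδ
  have b3 := T.box.c0
  have b4 := T.box.cδ
  have ha : a = 0 := by omega
  have hc : c = 0 := by omega
  subst ha
  subst hc
  have key : ∀ t : ℤ, 0 ≤ t → t ≤ M → 2 ∣ t → (t ∈ A ∨ M - t ∈ A) := by
    intro t h0 h1 h2
    have : t ∈ (Icc 0 (M / 2)).image (fun j : ℤ => 2 * j) := by
      rw [mem_image]
      exact ⟨t / 2, by rw [mem_Icc]; omega, by omega⟩
    rw [← heq, mem_union, mem_image] at this
    rcases this with h4 | ⟨s, hs, h4⟩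
    · exact Or.inl h4
    · right
      have : M - t = s := by linarith
      rw [this]; exact hs
  have oddY : ∀ q ∈ D, ¬ (2 : ℤ) ∣ Y q := by
    intro q hq h4
    have h5 := T.occY q hq
    have h6 := T.dom.rY q hq
    rw [sub_zero] at h5
    have := key (Y q) h6.1 (by omega) h4
    tauto
  have oddX : ∀ q ∈ D, ¬ (2 : ℤ) ∣ X q := by
    intro q hq h4
    have h5 := T.occX q hq
    have h6 := T.dom.rX q hq
    rw [sub_zero] at h5
    have := key (X q) h6.1 (by omega) h4
    tauto
  have notA : ∀ t : ℤ, ¬ 2 ∣ t → t ∉ A ∧ M - t ∉ A := by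
    intro t h4
    refine ⟨fun h5 => h4 (hE t h5), fun h5 => ?_⟩
    have := hE _ h5
    omega
  apply halved_main (k := p - 1) (by omega) (by omega)
    (D.image (fun q => ((X q - m) / 2, (Y q - m) / 2)))
  · rw [card_image_of_injOn, T.dom.card]
    · omega
    · intro q hq q' hq' h4
      have h5 : (Y q - m) / 2 = (Y q' - m) / 2 := congrArg Prod.snd h4
      have h6 := oddY q hq
      have h7 := oddY q' hq'
      exact T.injY q hq q' hq' (by omega)
  · intro x hx
    rw [mem_Icc] at hx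
    have h4 : ¬ (2 : ℤ) ∣ 2 * x + m := by omega
    have h5 := notA _ h4
    obtain ⟨q, hq, hq2⟩ := T.fullX (x := 2 * x + m) (by omega) (by omega)
      (by rw [sub_zero]; exact h5.1) (by rw [sub_zero]; exact h5.2)
    exact ⟨_, mem_image.2 ⟨q, hq, rfl⟩, by simp only; omega⟩
  · intro y hy
    rw [mem_Icc] at hy
    have h4 : ¬ (2 : ℤ) ∣ 2 * y + m := by omega
    have h5 := notA _ h4
    obtain ⟨q, hq, hq2⟩ := T.fullY (y := 2 * y + m) (by omega) (by omega)
      (by rw [sub_zero]; exact h5.1) (by rw [sub_zero]; exact h5.2)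
    exact ⟨_, mem_image.2 ⟨q, hq, rfl⟩, by simp only; omega⟩
  · intro u v huv hle
    obtain ⟨w, hw⟩ := huv
    have hu := le_abs_self u
    have hu' := neg_abs_le u
    have hv := le_abs_self v
    have hv' := neg_abs_le v
    have hx0 : (0 : ℤ) ≤ m + v - u := by omega
    have hx1 : (m : ℤ) + v - u ≤ 2 * m := by omega
    have hy0 : (0 : ℤ) ≤ m + u + v := by omega
    have hy1 : (m : ℤ) + u + v ≤ 2 * m := by omega
    obtain ⟨q, hq, hh⟩ := T.dom.dom (m + v - u) (m + u + v) hx0 hx1 hy0 hy1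
    have e1 : (2 : ℤ) ∣ m + v - u := by omega
    have e2 : (2 : ℤ) ∣ m + u + v := by omega
    have h5 := oddX q hq
    have h6 := oddY q hq
    rcases hh with hh | hh | hh | hh
    · exact absurd (by rw [← hh]; exact e1) h5
    · exact absurd (by rw [← hh]; exact e2) h6
    · left
      exact ⟨_, mem_image.2 ⟨q, hq, rfl⟩, by simp only; omega⟩
    · right
      exact ⟨_, mem_image.2 ⟨q, hq, rfl⟩, by simp only; omega⟩

lemma sum_quad (g M : ℤ) (n : ℕ) :
    ∑ j ∈ range n, (2 * ((j : ℤ) * g) ^ 2 + (2 * ((j : ℤ) * g) - M) ^ 2) =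
      g ^ 2 * (n - 1) * n * (2 * n - 1) - 2 * g * M * n * (n - 1) + n * M ^ 2 := by
  induction n with
  | zero => simp
  | succ n ih =>
    rw [sum_range_succ, ih]
    push_cast
    ring

/-- the sum over the second shape -/
lemma sum_shape (T : Tight m p D X Y a c M A) {g z : ℤ} (hg : 0 < g)
    (hA : ∀ t, t ∈ A ↔ ((∃ j : ℕ, j + 2 ≤ p ∧ t = j * g) ∨ t = z)) :
    ∑ t ∈ A, (2 * t ^ 2 + (2 * t - M) ^ 2) = 2 * z ^ 2 + (2 * z - M) ^ 2 +
      (g ^ 2 * ((p : ℤ) - 2) * (p - 1) * (2 * p - 3) - 2 * g * M * (p - 1) * (p - 2) + (p - 1) * M ^ 2) := by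
  classical
  have hp2 := T.p2
  have hAe : A = insert z ((range (p - 1)).image (fun j : ℕ => (j : ℤ) * g)) := by
    ext t
    rw [hA, mem_insert, mem_image, or_comm]
    apply or_congr Iff.rfl
    constructor
    · rintro ⟨j, hj, rfl⟩
      exact ⟨j, by rw [mem_range]; omega, rfl⟩
    · rintro ⟨j, hj, rfl⟩
      rw [mem_range] at hj
      exact ⟨j, by omega, rfl⟩
  have hinj : Function.Injective (fun j : ℕ => (j : ℤ) * g) := by
    intro i j hij
    have : (i : ℤ) = j := mul_right_cancel₀ hg.ne' hij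
    exact_mod_cast this
  have hcS : ((range (p - 1)).image (fun j : ℕ => (j : ℤ) * g)).card = p - 1 := by
    rw [card_image_of_injective _ hinj, card_range]
  have hz : z ∉ (range (p - 1)).image (fun j : ℕ => (j : ℤ) * g) := by
    intro h1
    have h2 := T.cA
    rw [hAe, insert_eq_of_mem h1, hcS] at h2
    omega
  rw [hAe, sum_insert hz, sum_image (fun i _ j _ hij => hinj hij), sum_quad]
  have : ((p - 1 : ℕ) : ℤ) = (p : ℤ) - 1 := by push_cast [Nat.cast_sub (by omega : 1 ≤ p)]; ring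
  rw [this]
  ring

/-- the moment inequality -/
lemma ineq (T : Tight m p D X Y a c M A) :
    4 * (p : ℤ) * (2 * p - 1) * (4 * p - 1) ≤ 3 * ∑ t ∈ A, (2 * t ^ 2 + (2 * t - M) ^ 2) := by
  have h1 := T.moment
  have h2 := T.hp
  have h3 : (m : ℤ) = 2 * p - 1 := by omega
  rw [h3] at h1
  have h4 : 0 ≤ 3 * (2 * (2 * (p : ℤ) - 1) + 1) * ((2 * (2 * (p : ℤ) - 1) - 2 * c - M) ^ 2 +
      (2 * (2 * (p : ℤ) - 1) - 2 * a - M) ^ 2) := by
    have h5 := T.p2
    have h6 : (0 : ℤ) ≤ 3 * (2 * (2 * (p : ℤ) - 1) + 1) := by omega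
    positivity
  linarith

/-- equality if the box is the board -/
lemma ineq_eq (T : Tight m p D X Y a c M A) (hM : M = 4 * (p : ℤ) - 2) :
    4 * (p : ℤ) * (2 * p - 1) * (4 * p - 1) = 3 * ∑ t ∈ A, (2 * t ^ 2 + (2 * t - M) ^ 2) ∧
    a = 0 ∧ c = 0 := by
  have h1 := T.moment
  have h2 := T.hp
  have h3 : (m : ℤ) = 2 * p - 1 := by omega
  have b1 := T.box.a0
  have b2 := T.box.aδ
  have b3 := T.box.c0
  have b4 := T.box.cδ
  have ha : a = 0 := by omega
  have hc : c = 0 := by omega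
  refine ⟨?_, ha, hc⟩
  have e1 : 2 * (m : ℤ) - 2 * c - M = 0 := by omega
  have e2 : 2 * (m : ℤ) - 2 * a - M = 0 := by omega
  rw [e1, e2] at h1
  rw [h3] at h1
  linarith

/-- the progression case -/
theorem ap_case (T : Tight m p D X Y a c M A) {g z : ℤ} (hg : g = 1 ∨ g = 3)
    (hz : z = ((p : ℤ) - 1) * g ∨ z = M - ((p : ℤ) - 1) * g)
    (hA : ∀ t, t ∈ A ↔ ((∃ j : ℕ, j + 2 ≤ p ∧ t = j * g) ∨ t = z)) : False := by
  have hp2 := T.p2
  have hP : (2 : ℤ) ≤ p := by exact_mod_cast hp2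
  have hlo := T.dens
  have hup := T.upM
  have hM0 := T.box.hδ
  have hM2 := T.evenM
  have hin := T.ineq
  have hfin : 0 < (p : ℤ) * (2 * p - 1) * (p - 1) := by
    apply mul_pos (mul_pos _ _) _ <;> omega
  rcases hg with rfl | rfl
  · have hs := T.sum_shape one_pos hA
    rcases hz with hz | hz
    · -- z = p - 1
      rw [hs, hz] at hin
      have k1 : M ^ 2 - 2 * M * ((p : ℤ) - 1) ≤ (4 * p - 2) ^ 2 - 2 * (4 * p - 2) * (p - 1) := by
        nlinarith [mul_nonneg (by omega : (0 : ℤ) ≤ 4 * p - 2 - M) (by omega : (0 : ℤ) ≤ M + 4 * p - 2 - 2 * p + 2)]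
      have k2 := mul_le_mul_of_nonneg_left k1 (by omega : (0 : ℤ) ≤ p)
      nlinarith
    · by_cases hM4 : M = 4 * (p : ℤ) - 2
      · obtain ⟨-, ha, hc⟩ := T.ineq_eq hM4
        subst ha
        subst hc
        have hzA : z ∈ A := (hA z).2 (Or.inr rfl)
        have hzA' := hzA
        rw [← T.e1, mem_SP] at hzA
        obtain ⟨-, q, hq, hq2⟩ := hzA
        have o1 := T.occY q hq
        have o2 := T.occX q hq
        have o3 := T.dom.rY q hq
        have o4 := T.dom.rX q hq
        have hmp := T.hp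
        rw [sub_zero] at o1 o2
        unfold f1 at hq2
        have y1 : Y q ≤ 3 * p - 2 := by
          by_contra hcon
          by_cases h1 : Y q = 3 * p - 1
          · apply o1.1
            have : Y q = z := by omega
            rw [this]; exact hzA'
          · apply o1.2
            rw [hA]
            left
            exact ⟨(M - Y q).toNat, by omega, by omega⟩
        have x1 : (p : ℤ) ≤ X q := by
          by_contra hcon
          by_cases h1 : X q = p - 1
          · apply o2.2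
            have : M - X q = z := by omega
            rw [this]; exact hzA'
          · apply o2.1
            rw [hA]
            left
            exact ⟨(X q).toNat, by omega, by omega⟩
        omega
      · rw [hs, hz] at hin
        have hM4' : M ≤ 4 * p - 4 := by omega
        have k1 : M ^ 2 - 2 * M * ((p : ℤ) - 1) ≤ 8 * (p - 1) ^ 2 := by
          nlinarith [mul_nonneg (by omega : (0 : ℤ) ≤ 4 * p - 4 - M) (by omega : (0 : ℤ) ≤ M + 4 * p - 4 - 2 * p + 2)]
        have k2 := mul_le_mul_of_nonneg_left k1 (by omega : (0 : ℤ) ≤ p + 2)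
        have k3 := mul_nonneg (by omega : (0 : ℤ) ≤ p) (sq_nonneg (4 * (p : ℤ) - 15))
        nlinarith
  · have hs := T.sum_shape (by norm_num : (0 : ℤ) < 3) hA
    have k1 : M ^ 2 - 6 * M * ((p : ℤ) - 1) ≤ (4 * p - 2) ^ 2 - 6 * (4 * p - 2) * (p - 1) := by
      nlinarith [mul_nonneg (by omega : (0 : ℤ) ≤ 4 * p - 2 - M) (by omega : (0 : ℤ) ≤ M - 2 * p + 4)]
    have k2 := mul_le_mul_of_nonneg_left k1 (by omega : (0 : ℤ) ≤ p)
    rcases hz with hz | hz
    · rw [hs, hz] at hin
      nlinarith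
    · rw [hs, hz] at hin
      have k3 := mul_nonneg hM0.le (by omega : (0 : ℤ) ≤ 6 * (p - 1) - M)
      nlinarith

/-- the sporadic case -/
theorem four_case (T : Tight m p D X Y a c M A) (hp : p = 4) {g s : ℤ} (hg : 0 < g) (hgs : g < s)
    (hs : s < M - g - s) (hA : ∀ t, t ∈ A ↔ (t = 0 ∨ t = g ∨ t = s ∨ t = M - g - s)) : False := by
  classical
  subst hp
  have hlo := T.dens
  have hup := T.upM
  have hM2 := T.evenM
  have hin := T.ineq
  push_cast at hlo hup hin
  have hAe : A = {0, g, s, M - g - s} := by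
    ext t
    rw [hA, mem_insert, mem_insert, mem_insert, mem_singleton]
  have hsum : ∑ t ∈ A, (2 * t ^ 2 + (2 * t - M) ^ 2) = (2 * 0 ^ 2 + (2 * 0 - M) ^ 2) +
      ((2 * g ^ 2 + (2 * g - M) ^ 2) + ((2 * s ^ 2 + (2 * s - M) ^ 2) +
      (2 * (M - g - s) ^ 2 + (2 * (M - g - s) - M) ^ 2))) := by
    rw [hAe, sum_insert, sum_insert, sum_pair (by omega)]
    · rw [mem_insert, mem_singleton]
      omega
    · rw [mem_insert, mem_insert, mem_singleton]
      omega
  have hM : M = 12 ∨ M = 14 := by omega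
  rcases hM with rfl | rfl
  · rw [hsum] at hin
    have g1 : g ≤ 3 := by omega
    have s1 : s ≤ 5 := by omega
    interval_cases g <;> interval_cases s <;> omega
  · have he := (T.ineq_eq (by norm_num)).1
    push_cast at he
    rw [hsum] at he
    have g1 : g ≤ 3 := by omega
    have s1 : s ≤ 6 := by omega
    interval_cases g <;> interval_cases s <;> omega

theorem final (T : Tight m p D X Y a c M A) (h3 : p ≠ 3) : False := by
  rcases T.concl with h | ⟨g, z, hg, hz, hA⟩ | ⟨hp, g, s, hg, hgs, hs, hA⟩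
  · exact T.even_case h h3
  · exact T.ap_case hg hz hA
  · exact T.four_case hp hg hgs hs hA

end Tight

/-- no board of size `2m+1` with `m ≠ 5`, `m ≥ 2` is dominated by `m` queens -/
theorem no_dom (h : Dom m D X Y) (hm : 2 ≤ m) (h5 : m ≠ 5) : False := by
  obtain ⟨p, a, c, M, A, T⟩ := exists_tight h hm
  have := T.hp
  exact T.final (by omega)

end Pool.Agent.TH533.Q
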