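import Pool.Agent.TH533.Q.Conf

set_option autoImplicit false

/-!
Parity, density and the moment identity.
-/

namespace Pool.Agent.TH533.Q

open Finset
open Pool.Agent.H642R3.Q (cnt Dom cnt_pos_iff cnt_sum cnt_congr)

variable {ι : Type} {m p : ℕ} {D : Finset ι} {X Y : ι → ℤ} {a c M : ℤ} {A : Finset ℤ}

/-- all the data of a tight configuration -/
structure Tight (m p : ℕ) (D : Finset ι) (X Y : ι → ℤ) (a c M : ℤ) (A : Finset ℤ) : Prop where
  dom : Dom m D X Y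
  box : Dom.Box m D X Y a c M
  hp : m + 1 = 2 * p
  p2 : 2 ≤ p
  e1 : SP D (f1 X Y a c) M = A
  e2 : SP D (f2 X Y a c) M = A
  e3 : SP D (f3 X Y a c M) M = A
  e4 : SP D (f4 X Y a c M) M = A
  sys : Sys M p A A A A

theorem exists_tight (h : Dom m D X Y) (hm : 2 ≤ m) :
    ∃ (p : ℕ) (a c M : ℤ) (A : Finset ℤ), Tight m p D X Y a c M A := by
  obtain ⟨a, c, M, b⟩ := h.exists_box (by omega)
  obtain ⟨p, hp, hs⟩ := sys h b
  have h2 : 2 ≤ p := by omega
  obtain ⟨h3, h4, h5⟩ := hs.all_eq h2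
  refine ⟨p, a, c, M, SP D (f1 X Y a c) M, h, b, hp, h2, rfl, h3.symm, h5.symm, ?_, ?_⟩
  · rw [← h4, ← h5]
  · rw [← h4, ← h3, ← h5] at hs
    exact hs

lemma sum_even (D : Finset ι) (f f' : ι → ℤ) (M : ℤ) (hf : ∀ q ∈ D, f' q = - f q)
    (hr : ∀ q ∈ D, -M < f q ∧ f q < M) (hc : ∀ w ∈ Icc 0 M, cnt D f w ≤ 1)
    (hc' : ∀ w ∈ Icc 0 M, cnt D f' w ≤ 1) (hM : 0 < M) (h1 : SP D f M = A) (h2 : SP D f' M = A)
    (h0 : (0 : ℤ) ∈ A) (φ : ℤ → ℤ) (hφ : ∀ t, φ (-t) = φ t) :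
    ∑ q ∈ D, φ (f q) = 2 * ∑ t ∈ A, φ t - φ 0 := by
  classical
  have s1 := sum_occ D f (Icc 0 M) hc φ
  have s2 := sum_occ D f' (Icc 0 M) hc' φ
  change _ = ∑ t ∈ SP D f M, φ t at s1
  change _ = ∑ t ∈ SP D f' M, φ t at s2
  rw [h1, sum_filter] at s1
  rw [h2, sum_filter] at s2
  have s3 : ∑ q ∈ D, (if f q = 0 then φ (f q) else 0) = φ 0 := by
    rw [← sum_filter, sum_congr rfl (fun q hq => by rw [(mem_filter.1 hq).2]) (g := fun _ => φ 0),
      sum_const, nsmul_eq_mul]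
    have : cnt D f 0 = 1 := by
      have h3 := hc 0 (by rw [mem_Icc]; omega)
      have h4 : 0 < cnt D f 0 := by
        rw [← h1, mem_SP] at h0
        exact (cnt_pos_iff D f 0).2 h0.2
      omega
    unfold cnt at this
    rw [this]; simp
  have s4 : ∑ q ∈ D, φ (f q) + ∑ q ∈ D, (if f q = 0 then φ (f q) else 0) =
      ∑ q ∈ D, (if f q ∈ Icc 0 M then φ (f q) else 0) +
      ∑ q ∈ D, (if f' q ∈ Icc 0 M then φ (f' q) else 0) := by
    rw [← sum_add_distrib, ← sum_add_distrib]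
    apply sum_congr rfl
    intro q hq
    have h3 := hf q hq
    have h4 := hr q hq
    rw [h3, hφ]
    simp only [mem_Icc]
    by_cases h5 : f q = 0
    · rw [if_pos h5, if_pos (by omega), if_pos (by omega)]
    · rw [if_neg h5]
      by_cases h6 : 0 ≤ f q
      · rw [if_pos (by omega), if_neg (by omega)]
      · rw [if_neg (by omega), if_pos (by omega)]
        ring
  rw [s3, s1, s2] at s4
  linarith

lemma three_sum_lin (e : ℤ) (n : ℕ) :
    3 * ∑ i ∈ range n, (2 * (i : ℤ) - e) ^ 2 = 2 * (n - 1) * n * (2 * n - 1) - 6 * e * n * (n - 1)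
      + 3 * n * e ^ 2 := by
  induction n with
  | zero => simp
  | succ n ih =>
    rw [sum_range_succ, mul_add, ih]
    push_cast
    ring

lemma sum_board (m : ℕ) (F : ℤ → ℤ) : ∑ y ∈ Icc (0 : ℤ) (2 * m), F y = ∑ i ∈ range (2 * m + 1), F i := by
  have : Icc (0 : ℤ) (2 * m) = (range (2 * m + 1)).image (fun i : ℕ => (i : ℤ)) := by
    ext y
    rw [mem_Icc, mem_image]
    constructor
    · rintro ⟨h1, h2⟩
      exact ⟨y.toNat, by rw [mem_range]; omega, by omega⟩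
    · rintro ⟨i, hi, rfl⟩
      rw [mem_range] at hi
      omega
  rw [this, sum_image]
  intro i _ j _ hij
  have : (i : ℤ) = j := hij
  exact_mod_cast this

/-- one coordinate of the moment identity -/
lemma moment_one (Y : ι → ℤ) (c : ℤ) (hu : ∀ y ∈ Icc (0 : ℤ) (2 * m), cnt D Y y ≤ 1)
    (hr : ∀ q ∈ D, 0 ≤ Y q ∧ Y q ≤ 2 * m)
    (he : ∀ y ∈ Icc (0 : ℤ) (2 * m), cnt D Y y = 0 ↔ (y - c ∈ A ∨ M - (y - c) ∈ A))
    (hA : ∀ t ∈ A, 0 ≤ t ∧ t < M) (hi : ∀ t ∈ A, ∀ t' ∈ A, t + t' ≠ M) (hc : 0 ≤ c)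
    (hcM : c + M ≤ 2 * m) :
    3 * (∑ q ∈ D, (2 * (Y q - c) - M) ^ 2 + 2 * ∑ t ∈ A, (2 * t - M) ^ 2) =
      4 * m * (m + 1) * (2 * m + 1) + 3 * (2 * m + 1) * (2 * m - 2 * c - M) ^ 2 := by
  classical
  have s1 := sum_occ D Y (Icc (0 : ℤ) (2 * m)) hu (fun y => (2 * (y - c) - M) ^ 2)
  rw [filter_true_of_mem (s := D) (by
    intro q hq
    rw [mem_Icc]
    exact hr q hq)] at s1
  have s2 := sum_filter_add_sum_filter_not (Icc (0 : ℤ) (2 * m)) (fun y => 0 < cnt D Y y)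
    (fun y => (2 * (y - c) - M) ^ 2)
  have s3 : (Icc (0 : ℤ) (2 * m)).filter (fun y => ¬ 0 < cnt D Y y) =
      A.image (fun t => c + t) ∪ A.image (fun t => c + (M - t)) := by
    ext y
    rw [mem_filter, mem_union, mem_image, mem_image]
    constructor
    · rintro ⟨h1, h2⟩
      have h3 : cnt D Y y = 0 := by omega
      rw [he y h1] at h3
      rcases h3 with h3 | h3
      · left; exact ⟨_, h3, by ring⟩
      · right; exact ⟨_, h3, by ring⟩
    · rintro (⟨t, ht, rfl⟩ | ⟨t, ht, rfl⟩)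
      · have h4 := hA t ht
        have h5 : c + t ∈ Icc (0 : ℤ) (2 * m) := by rw [mem_Icc]; omega
        refine ⟨h5, ?_⟩
        have := (he _ h5).2 (Or.inl (by rw [show c + t - c = t by ring]; exact ht))
        omega
      · have h4 := hA t ht
        have h5 : c + (M - t) ∈ Icc (0 : ℤ) (2 * m) := by rw [mem_Icc]; omega
        refine ⟨h5, ?_⟩
        have := (he _ h5).2 (Or.inr (by rw [show M - (c + (M - t) - c) = t by ring]; exact ht))
        omega
  have s4 : Disjoint (A.image (fun t => c + t)) (A.image (fun t => c + (M - t))) := by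
    rw [disjoint_left]
    intro y h1 h2
    obtain ⟨t, ht, rfl⟩ := mem_image.1 h1
    obtain ⟨t', ht', h3⟩ := mem_image.1 h2
    exact hi t ht t' ht' (by linarith)
  rw [s3, sum_union s4, sum_image (by intro x _ y _ hxy; have : c + x = c + y := hxy; linarith),
    sum_image (by intro x _ y _ hxy; have : c + (M - x) = c + (M - y) := hxy; linarith), ← s1,
    sum_board] at s2
  have s5 : ∑ t ∈ A, (2 * (c + t - c) - M) ^ 2 = ∑ t ∈ A, (2 * t - M) ^ 2 :=
    sum_congr rfl (fun t _ => by ring)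
  have s6 : ∑ t ∈ A, (2 * (c + (M - t) - c) - M) ^ 2 = ∑ t ∈ A, (2 * t - M) ^ 2 :=
    sum_congr rfl (fun t _ => by ring)
  have s7 : ∑ i ∈ range (2 * m + 1), (2 * ((i : ℤ) - c) - M) ^ 2 =
      ∑ i ∈ range (2 * m + 1), (2 * (i : ℤ) - (2 * c + M)) ^ 2 :=
    sum_congr rfl (fun t _ => by ring)
  have s8 := three_sum_lin (2 * c + M) (2 * m + 1)
  rw [s5, s6, s7] at s2
  rw [← s2] at s8
  push_cast at s8
  have s9 : 3 * (∑ q ∈ D, (2 * (Y q - c) - M) ^ 2 + 2 * ∑ t ∈ A, (2 * t - M) ^ 2) =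
    3 * (∑ q ∈ D, (2 * (Y q - c) - M) ^ 2 + (∑ t ∈ A, (2 * t - M) ^ 2 + ∑ t ∈ A, (2 * t - M) ^ 2)) := by
    ring
  rw [s9, s8]
  ring

namespace Tight

lemma A0 (T : Tight m p D X Y a c M A) : (0 : ℤ) ∈ A := T.sys.zP

lemma rA (T : Tight m p D X Y a c M A) : ∀ t ∈ A, 0 ≤ t ∧ t < M := T.sys.rP

lemma iA (T : Tight m p D X Y a c M A) : ∀ t ∈ A, ∀ t' ∈ A, t + t' ≠ M := by
  intro t ht t' ht' h
  exact T.sys.n1 t ht (by rw [← h]; simpa using ht')

lemma swap (T : Tight m p D X Y a c M A) : Tight m p D Y X c a M A := by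
  refine ⟨T.dom.swap, T.box.swap, T.hp, T.p2, ?_, ?_, ?_, ?_, T.sys⟩
  · rw [← T.e2]; rfl
  · rw [← T.e1]; rfl
  · rw [← T.e3]
    congr 1
    funext q
    unfold f3; ring
  · rw [← T.e4]
    congr 1
    funext q
    unfold f4; ring

lemma c1 (T : Tight m p D X Y a c M A) : ∀ w ∈ Icc 0 M, cnt D (f1 X Y a c) w ≤ 1 := by
  intro w hw
  rw [mem_Icc] at hw
  have := (four T.dom T.box w hw.1 hw.2).1.1
  omega

lemma c2 (T : Tight m p D X Y a c M A) : ∀ w ∈ Icc 0 M, cnt D (f2 X Y a c) w ≤ 1 := by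
  intro w hw
  rw [mem_Icc] at hw
  have := (four T.dom T.box w hw.1 hw.2).2.1
  omega

lemma c3 (T : Tight m p D X Y a c M A) : ∀ w ∈ Icc 0 M, cnt D (f3 X Y a c M) w ≤ 1 := by
  intro w hw
  rw [mem_Icc] at hw
  have := (four T.dom T.box w hw.1 hw.2).1.2
  omega

lemma c4 (T : Tight m p D X Y a c M A) : ∀ w ∈ Icc 0 M, cnt D (f4 X Y a c M) w ≤ 1 := by
  intro w hw
  rw [mem_Icc] at hw
  have := (four T.dom T.box (M - w) (by omega) (by omega)).2.1
  rw [sub_sub_cancel] at this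
  omega

lemma sum1 (T : Tight m p D X Y a c M A) (φ : ℤ → ℤ) (hφ : ∀ t, φ (-t) = φ t) :
    ∑ q ∈ D, φ (f1 X Y a c q) = 2 * ∑ t ∈ A, φ t - φ 0 :=
  sum_even D _ (f2 X Y a c) M (fun q _ => by unfold f1 f2; ring)
    (fun q hq => (rng T.dom T.box q hq).1) T.c1 T.c2 T.box.hδ T.e1 T.e2 T.A0 φ hφ

lemma sum3 (T : Tight m p D X Y a c M A) (φ : ℤ → ℤ) (hφ : ∀ t, φ (-t) = φ t) :
    ∑ q ∈ D, φ (f3 X Y a c M q) = 2 * ∑ t ∈ A, φ t - φ 0 :=
  sum_even D _ (f4 X Y a c M) M (fun q _ => by unfold f3 f4; ring)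
    (fun q hq => (rng T.dom T.box q hq).2.2.1) T.c3 T.c4 T.box.hδ T.e3 T.e4 T.A0 φ hφ

/-- `M` is even -/
lemma evenM (T : Tight m p D X Y a c M A) : 2 ∣ M := by
  by_contra hM
  have h1 := T.sum1 (fun t => if 2 ∣ t then 1 else 0) (fun t => by simp only [dvd_neg])
  have h3 := T.sum3 (fun t => if 2 ∣ t then 0 else 1) (fun t => by simp only [dvd_neg])
  have h4 : ∑ q ∈ D, (if (2 : ℤ) ∣ f1 X Y a c q then (1 : ℤ) else 0) =
      ∑ q ∈ D, (if (2 : ℤ) ∣ f3 X Y a c M q then (0 : ℤ) else 1) := by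
    apply sum_congr rfl
    intro q _
    unfold f1 f3
    by_cases h5 : (2 : ℤ) ∣ Y q - c - (X q - a)
    · rw [if_pos h5, if_neg (by omega)]
    · rw [if_neg h5, if_pos (by omega)]
  simp only [dvd_zero, if_true] at h1 h3
  rw [h4, h3] at h1
  omega

/-- every row is occupied at most once -/
lemma uY (T : Tight m p D X Y a c M A) : ∀ y ∈ Icc (0 : ℤ) (2 * m), cnt D Y y ≤ 1 := by
  intro y hy
  rw [mem_Icc] at hy
  by_cases h1 : c ≤ y ∧ y ≤ c + M
  · have := (four T.dom T.box (y - c) (by omega) (by omega)).1.1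
    rw [show c + (y - c) = y by ring] at this
    omega
  · have := (T.dom.box_row T.box).2.2.1 y hy.1 hy.2 (by omega)
    omega

/-- the empty rows -/
lemma eY (T : Tight m p D X Y a c M A) :
    ∀ y ∈ Icc (0 : ℤ) (2 * m), cnt D Y y = 0 ↔ (y - c ∈ A ∨ M - (y - c) ∈ A) := by
  intro y hy
  rw [mem_Icc] at hy
  by_cases h1 : c ≤ y ∧ y ≤ c + M
  · have h2 := (four T.dom T.box (y - c) (by omega) (by omega)).1.1
    rw [show c + (y - c) = y by ring] at h2
    have h3 : (y - c ∈ A ↔ 0 < cnt D (f1 X Y a c) (y - c)) := by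
      rw [← T.e1]
      unfold SP
      rw [mem_filter, mem_Icc]
      constructor
      · exact fun h => h.2
      · exact fun h => ⟨by omega, h⟩
    have h4 : (M - (y - c) ∈ A ↔ 0 < cnt D (f4 X Y a c M) (M - (y - c))) := by
      rw [← T.e4]
      unfold SP
      rw [mem_filter, mem_Icc]
      constructor
      · exact fun h => h.2
      · exact fun h => ⟨by omega, h⟩
    rw [h3, h4]
    omega
  · have h2 := (T.dom.box_row T.box).2.2.1 y hy.1 hy.2 (by omega)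
    constructor
    · intro h3; omega
    · rintro (h3 | h3)
      · have := T.rA _ h3; omega
      · have := T.rA _ h3; omega

/-- the moment identity -/
theorem moment (T : Tight m p D X Y a c M A) :
    12 * ∑ t ∈ A, (2 * t ^ 2 + (2 * t - M) ^ 2) = 8 * m * (m + 1) * (2 * m + 1) +
      3 * (2 * m + 1) * ((2 * m - 2 * c - M) ^ 2 + (2 * m - 2 * a - M) ^ 2) := by
  have h1 := moment_one Y c T.uY T.dom.rY T.eY T.rA T.iA T.box.c0 T.box.cδ
  have h2 := moment_one X a T.swap.uY T.dom.rX T.swap.eY T.rA T.iA T.box.a0 T.box.aδ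
  have h3 := T.sum1 (fun t => t ^ 2) (fun t => by ring)
  have h4 := T.sum3 (fun t => t ^ 2) (fun t => by ring)
  have h5 : ∑ q ∈ D, (2 * (Y q - c) - M) ^ 2 + ∑ q ∈ D, (2 * (X q - a) - M) ^ 2 =
      2 * ∑ q ∈ D, (f1 X Y a c q) ^ 2 + 2 * ∑ q ∈ D, (f3 X Y a c M q) ^ 2 := by
    rw [mul_sum, mul_sum, ← sum_add_distrib, ← sum_add_distrib]
    apply sum_congr rfl
    intro q _
    unfold f1 f3
    ring
  rw [h3, h4] at h5
  have h6 : ∑ t ∈ A, (2 * t ^ 2 + (2 * t - M) ^ 2) = 2 * ∑ t ∈ A, t ^ 2 + ∑ t ∈ A, (2 * t - M) ^ 2 := by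
    rw [sum_add_distrib, mul_sum]
  rw [h6]
  linarith

/-- the density bound -/
lemma dens (T : Tight m p D X Y a c M A) : 3 * (p : ℤ) - 1 ≤ M := by
  classical
  have h1 := (T.dom.box_row T.box).2.2.2
  have h2 := (T.dom.swap.box_row T.box.swap).2.2.2
  have h3 := card_filter_add_card_filter_not (s := D) (fun q => Y q ∈ Icc c (c + M))
  have h4 := card_filter_add_card_filter_not (s := D) (fun q => X q ∈ Icc a (a + M))
  have h5 : Disjoint (D.filter (fun q => ¬ Y q ∈ Icc c (c + M))) (D.filter (fun q => ¬ X q ∈ Icc a (a + M))) := by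
    rw [disjoint_left]
    intro q hq1 hq2
    rw [mem_filter] at hq1 hq2
    have h6 := rng T.dom T.box q hq1.1
    unfold f1 f2 f3 f4 at h6
    have h7 := hq1.2
    have h8 := hq2.2
    rw [mem_Icc] at h7 h8
    omega
  have h6 : (D.filter (fun q => ¬ Y q ∈ Icc c (c + M)) ∪ D.filter (fun q => ¬ X q ∈ Icc a (a + M))).card
      ≤ D.card := card_le_card (union_subset (filter_subset _ _) (filter_subset _ _))
  rw [card_union_of_disjoint h5] at h6
  have h7 := T.dom.card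
  have h8 := T.hp
  omega

lemma upM (T : Tight m p D X Y a c M A) : M ≤ 4 * (p : ℤ) - 2 := by
  have h1 := T.box.a0
  have h2 := T.box.aδ
  have h3 := T.hp
  omega

lemma cA (T : Tight m p D X Y a c M A) : A.card = p := T.sys.cP

/-- the classification applies -/
theorem concl (T : Tight m p D X Y a c M A) : Concl M p A := by
  obtain ⟨g, k⟩ := T.sys.exists_gap T.p2
  have hc : Cls M g A := by
    refine ⟨k.hg, k.hgM, T.rA, T.A0, T.iA, ?_, k.bP⟩
    intro x hx y hy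
    have := T.sys.int y x (Or.inl hy) (Or.inl hx)
    rw [add_comm y x] at this
    tauto
  have hg : g ∈ A ∨ M - g ∈ A := by
    have := k.att
    tauto
  have h1 := T.dens
  have h2 := T.upM
  rw [← T.cA] at h1 h2
  have := hc.concl hg T.evenM h1 h2
  rw [T.cA] at this
  exact this

end Tight

end Pool.Agent.TH533.Q
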