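import Mathlib

set_option autoImplicit false

/-!
Combinatorics of the occupied diagonals of a dominating set of `(n-1)/2` queens: the four sets
of nonnegative/nonpositive difference/sum diagonals coincide.
-/

namespace Pool.Agent.TH533.Q

open Finset

/-- a finite set of nonnegative integers closed under `a ↦ a - g` is an initial segment of `g ℕ` -/
lemma ladder (S : Finset ℤ) (g : ℤ) (hg : 0 < g) (h0 : (0 : ℤ) ∈ S) (hn : ∀ a ∈ S, 0 ≤ a)
    (hd : ∀ a ∈ S, a ≠ 0 → a - g ∈ S) :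
    ∃ r : ℕ, ∀ a, a ∈ S ↔ ∃ j : ℕ, j ≤ r ∧ a = j * g := by
  classical
  have key : ∀ n : ℕ, ∀ a ∈ S, a.toNat ≤ n → ∃ j : ℕ, a = j * g ∧ ∀ i : ℕ, i ≤ j → (i : ℤ) * g ∈ S := by
    intro n
    induction n with
    | zero =>
      intro a ha hle
      have h1 := hn a ha
      have : a = 0 := by omega
      subst this
      exact ⟨0, by simp, by intro i hi; have : i = 0 := by omega
                            subst this; simpa using h0⟩
    | succ n ih =>
      intro a ha hle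
      by_cases haz : a = 0
      · subst haz
        exact ⟨0, by simp, by intro i hi; have : i = 0 := by omega
                              subst this; simpa using h0⟩
      · have h1 := hd a ha haz
        have h2 := hn _ h1
        obtain ⟨j, hj, hall⟩ := ih (a - g) h1 (by omega)
        refine ⟨j + 1, by push_cast; linarith, ?_⟩
        intro i hi
        by_cases hij : i ≤ j
        · exact hall i hij
        · have : i = j + 1 := by omega
          subst this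
          have e : ((j + 1 : ℕ) : ℤ) * g = a := by push_cast; linarith
          rw [e]; exact ha
  obtain ⟨m, hm, hmax⟩ := S.exists_max_image id ⟨0, h0⟩
  simp only [id] at hmax
  obtain ⟨r, hr, hall⟩ := key m.toNat m hm le_rfl
  refine ⟨r, fun a => ⟨?_, ?_⟩⟩
  · intro ha
    obtain ⟨j, hj, -⟩ := key a.toNat a ha le_rfl
    refine ⟨j, ?_, hj⟩
    have h1 := hmax a ha
    rw [hj, hr] at h1
    have : (j : ℤ) ≤ r := le_of_mul_le_mul_right h1 hg
    exact_mod_cast this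
  · rintro ⟨j, hj, rfl⟩
    exact hall j hj

lemma ladder_card (S : Finset ℤ) (g : ℤ) (hg : 0 < g) (r : ℕ)
    (h : ∀ a, a ∈ S ↔ ∃ j : ℕ, j ≤ r ∧ a = j * g) : S.card = r + 1 := by
  classical
  have : S = (Finset.range (r + 1)).image (fun j : ℕ => (j : ℤ) * g) := by
    ext a
    rw [h, mem_image]
    constructor
    · rintro ⟨j, hj, rfl⟩
      exact ⟨j, by rw [mem_range]; omega, rfl⟩
    · rintro ⟨j, hj, rfl⟩
      rw [mem_range] at hj
      exact ⟨j, by omega, rfl⟩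
  rw [this, card_image_of_injective, card_range]
  intro a b hab
  have : (a : ℤ) = b := mul_right_cancel₀ hg.ne' hab
  exact_mod_cast this

/-- Relations between two of the sets. -/
structure Pair (M g : ℤ) (X Y : Finset ℤ) : Prop where
  hg : 0 < g
  rX : ∀ a ∈ X, a ≠ 0 → g ≤ a ∧ a ≤ M - g
  rY : ∀ a ∈ Y, a ≠ 0 → g ≤ a ∧ a ≤ M - g
  zX : (0 : ℤ) ∈ X
  zY : (0 : ℤ) ∈ Y
  cd : X.card = Y.card
  a : ∀ a ∈ X, a ≠ 0 → a - g ∈ X ∨ M - g - a ∈ Y
  b : ∀ a ∈ Y, a ≠ 0 → a - g ∈ Y ∨ M - g - a ∈ X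
  c : ∀ a ∈ X, ∀ b ∈ Y, a + b ≠ M

lemma Pair.symm {M g : ℤ} {X Y : Finset ℤ} (h : Pair M g X Y) : Pair M g Y X :=
  ⟨h.hg, h.rY, h.rX, h.zY, h.zX, h.cd.symm, h.b, h.a, fun a ha b hb hab => h.c b hb a ha (by linarith)⟩

/-- case H -/
lemma Pair.caseH {M g : ℤ} {X Y : Finset ℤ} (h : Pair M g X Y) (hN : M - g ∈ Y) :
    ∀ a ∈ X, M - g - a ∈ Y := by
  classical
  by_contra hcon
  push Not at hcon
  obtain ⟨a0, ha0, hb0⟩ := hcon
  obtain ⟨a, ha, hmin⟩ := (X.filter (fun a => M - g - a ∉ Y)).exists_min_image id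
    ⟨a0, mem_filter.2 ⟨ha0, hb0⟩⟩
  rw [mem_filter] at ha
  simp only [id] at hmin
  have haz : a ≠ 0 := by
    rintro rfl
    exact ha.2 (by rwa [sub_zero])
  rcases h.a a ha.1 haz with h1 | h1
  · by_cases h2 : M - g - (a - g) ∈ Y
    · exact h.c a ha.1 _ h2 (by ring)
    · have := hmin (a - g) (mem_filter.2 ⟨h1, h2⟩)
      have := h.hg
      omega
  · exact ha.2 h1

/-- case L -/
lemma Pair.caseL {M g : ℤ} {X Y : Finset ℤ} (h : Pair M g X Y) (h1 : M - g ∉ Y) (h2 : M - g ∉ X) :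
    ∃ r : ℕ, (∀ a, (a ∈ X ∧ M - g - a ∉ Y) ↔ ∃ j : ℕ, j ≤ r ∧ a = j * g) ∧
      (∀ a, (a ∈ Y ∧ M - g - a ∉ X) ↔ ∃ j : ℕ, j ≤ r ∧ a = j * g) := by
  classical
  have gen : ∀ X Y : Finset ℤ, Pair M g X Y → M - g ∉ Y →
      ∃ r : ℕ, ∀ a, a ∈ X.filter (fun a => M - g - a ∉ Y) ↔ ∃ j : ℕ, j ≤ r ∧ a = j * g := by
    intro X Y h h1
    apply ladder _ g h.hg
    · rw [mem_filter]
      exact ⟨h.zX, by rwa [sub_zero]⟩
    · intro a ha
      rw [mem_filter] at ha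
      by_cases haz : a = 0
      · omega
      · have := h.rX a ha.1 haz
        have := h.hg
        omega
    · intro a ha haz
      rw [mem_filter] at ha ⊢
      rcases h.a a ha.1 haz with h3 | h3
      · refine ⟨h3, fun h4 => h.c a ha.1 _ h4 (by ring)⟩
      · exact absurd h3 ha.2
  obtain ⟨r, hr⟩ := gen X Y h h1
  obtain ⟨r', hr'⟩ := gen Y X h.symm h2
  have c1 := ladder_card _ g h.hg r hr
  have c2 := ladder_card _ g h.hg r' hr'
  have c3 : (X.filter (fun a => ¬ (M - g - a ∉ Y))).card = (Y.filter (fun a => ¬ (M - g - a ∉ X))).card := by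
    apply card_bij (fun a _ => M - g - a)
    · intro a ha
      rw [mem_filter, not_not] at ha ⊢
      exact ⟨ha.2, by rw [sub_sub_cancel]; exact ha.1⟩
    · intro a _ b _ hab
      linarith
    · intro b hb
      rw [mem_filter, not_not] at hb
      exact ⟨M - g - b, by rw [mem_filter, not_not, sub_sub_cancel]; exact ⟨hb.2, hb.1⟩, by ring⟩
  have c4 := card_filter_add_card_filter_not (s := X) (fun a => M - g - a ∉ Y)
  have c5 := card_filter_add_card_filter_not (s := Y) (fun a => M - g - a ∉ X)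
  have c6 := h.cd
  have : r = r' := by omega
  subst this
  refine ⟨r, fun a => ?_, fun a => ?_⟩
  · rw [← hr, mem_filter]
  · rw [← hr', mem_filter]

/-- The sets of nonnegative and (negated) nonpositive occupied difference diagonals `P`, `P'` and
sum diagonals `Q`, `Q'` of a tight configuration. -/
structure Sys (M : ℤ) (n : ℕ) (P P' Q Q' : Finset ℤ) : Prop where
  rP : ∀ a ∈ P, 0 ≤ a ∧ a < M
  rP' : ∀ a ∈ P', 0 ≤ a ∧ a < M
  rQ : ∀ a ∈ Q, 0 ≤ a ∧ a < M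
  rQ' : ∀ a ∈ Q', 0 ≤ a ∧ a < M
  zP : (0 : ℤ) ∈ P
  zP' : (0 : ℤ) ∈ P'
  zQ : (0 : ℤ) ∈ Q
  zQ' : (0 : ℤ) ∈ Q'
  cP : P.card = n
  cP' : P'.card = n
  cQ : Q.card = n
  cQ' : Q'.card = n
  n1 : ∀ t, t ∈ P → M - t ∈ Q' → False
  n2 : ∀ t, t ∈ P' → M - t ∈ Q → False
  n3 : ∀ t, t ∈ P' → M - t ∈ Q' → False
  n4 : ∀ t, t ∈ P → M - t ∈ Q → False
  eR : ∀ t, 0 ≤ t → t ≤ M → ((t ∈ P ∨ M - t ∈ Q') ↔ (M - t ∈ P' ∨ t ∈ Q))
  eC : ∀ t, 0 ≤ t → t ≤ M → ((t ∈ P' ∨ M - t ∈ Q') ↔ (M - t ∈ P ∨ t ∈ Q))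
  int : ∀ i j, (i ∈ P' ∨ M - i ∈ Q' ∨ M - i ∈ P ∨ i ∈ Q) → (j ∈ P ∨ M - j ∈ Q' ∨ M - j ∈ P' ∨ j ∈ Q) →
    (j - i ∈ P ∨ i - j ∈ P') ∨ (i + j - M ∈ Q ∨ M - (i + j) ∈ Q')

namespace Sys

variable {M : ℤ} {n : ℕ} {P P' Q Q' : Finset ℤ}

/-- reflection in the main diagonal -/
lemma swapP (h : Sys M n P P' Q Q') : Sys M n P' P Q Q' where
  rP := h.rP'
  rP' := h.rP
  rQ := h.rQ
  rQ' := h.rQ'
  zP := h.zP'
  zP' := h.zP
  zQ := h.zQ
  zQ' := h.zQ'
  cP := h.cP'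
  cP' := h.cP
  cQ := h.cQ
  cQ' := h.cQ'
  n1 := h.n3
  n2 := h.n4
  n3 := h.n1
  n4 := h.n2
  eR := h.eC
  eC := h.eR
  int := by
    intro i j hi hj
    have := h.int j i (by tauto) (by tauto)
    rw [add_comm j i] at this
    tauto

/-- reflection in a vertical line -/
lemma swapDS (h : Sys M n P P' Q Q') : Sys M n Q Q' P P' where
  rP := h.rQ
  rP' := h.rQ'
  rQ := h.rP
  rQ' := h.rP'
  zP := h.zQ
  zP' := h.zQ'
  zQ := h.zP
  zQ' := h.zP'
  cP := h.cQ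
  cP' := h.cQ'
  cQ := h.cP
  cQ' := h.cP'
  n1 := fun t h1 h2 => h.n2 (M - t) h2 (by rwa [sub_sub_cancel])
  n2 := fun t h1 h2 => h.n1 (M - t) h2 (by rwa [sub_sub_cancel])
  n3 := fun t h1 h2 => h.n3 (M - t) h2 (by rwa [sub_sub_cancel])
  n4 := fun t h1 h2 => h.n4 (M - t) h2 (by rwa [sub_sub_cancel])
  eR := by
    intro t h0 h1
    have := h.eR t h0 h1
    tauto
  eC := by
    intro t h0 h1
    have := h.eC (M - t) (by omega) (by omega)
    rw [sub_sub_cancel] at this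
    tauto
  int := by
    intro i j hi hj
    have := h.int (M - i) j (by rw [sub_sub_cancel]; tauto) (by tauto)
    have e1 : j - (M - i) = i + j - M := by ring
    have e2 : M - i - j = M - (i + j) := by ring
    have e3 : M - i + j - M = j - i := by ring
    have e4 : M - (M - i + j) = i - j := by ring
    rw [e1, e2, e3, e4] at this
    tauto

lemma swapQ (h : Sys M n P P' Q Q') : Sys M n P P' Q' Q := h.swapDS.swapP.swapDS

/-- the relation between `P` and `Q` obtained from the row `M - g` -/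
lemma pairPQ (h : Sys M n P P' Q Q') {g : ℤ} (hg : 0 < g)
    (bP : ∀ a ∈ P, a ≠ 0 → g ≤ a ∧ a ≤ M - g) (bQ : ∀ a ∈ Q, a ≠ 0 → g ≤ a ∧ a ≤ M - g)
    (hN : M - g ∈ P ∨ g ∈ P') : Pair M g P Q := by
  have hj : (M - g ∈ P ∨ M - (M - g) ∈ Q' ∨ M - (M - g) ∈ P' ∨ M - g ∈ Q) := by
    rw [sub_sub_cancel]; tauto
  refine ⟨hg, bP, bQ, h.zP, h.zQ, by rw [h.cP, h.cQ], ?_, ?_, ?_⟩
  · intro a ha haz
    have hb := bP a ha haz
    rcases h.int (M - a) (M - g) (by rw [sub_sub_cancel]; tauto) hj with (h1 | h1) | (h1 | h1)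
    · left
      have e : M - g - (M - a) = a - g := by ring
      rwa [e] at h1
    · left
      have := (h.rP' _ h1).1
      have : a - g = 0 := by omega
      rw [this]; exact h.zP
    · right
      have e : M - a + (M - g) - M = M - g - a := by ring
      rwa [e] at h1
    · right
      have := (h.rQ' _ h1).1
      have : M - g - a = 0 := by omega
      rw [this]; exact h.zQ
  · intro a ha haz
    have hb := bQ a ha haz
    rcases h.int a (M - g) (by tauto) hj with (h1 | h1) | (h1 | h1)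
    · right
      have e : M - g - a = M - g - a := rfl
      exact h1
    · right
      have := (h.rP' _ h1).1
      have : M - g - a = 0 := by omega
      rw [this]; exact h.zP
    · left
      have e : a + (M - g) - M = a - g := by ring
      rwa [e] at h1
    · left
      have := (h.rQ' _ h1).1
      have : a - g = 0 := by omega
      rw [this]; exact h.zQ
  · intro a ha b hb hab
    exact h.n4 a ha (by rw [← hab]; simpa using hb)

/-- a pure difference level next to the border is impossible -/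
lemma noD (h : Sys M n P P' Q Q') {g : ℤ} (hg : 0 < g)
    (bP : ∀ a ∈ P, a ≠ 0 → g ≤ a ∧ a ≤ M - g) (bQ : ∀ a ∈ Q, a ≠ 0 → g ≤ a ∧ a ≤ M - g)
    (hNP : M - g ∈ P) (hNQ : M - g ∉ Q) (hgM : g < M) : False := by
  classical
  have hp := h.pairPQ hg bP bQ (Or.inl hNP)
  have hall := hp.symm.caseH hNP
  have hsub : (Q.erase 0).image (fun b => M - g - b) ⊆ (P.erase 0).erase (M - g) := by
    intro x hx
    obtain ⟨b, hb, rfl⟩ := mem_image.1 hx
    rw [mem_erase] at hb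
    rw [mem_erase, mem_erase]
    refine ⟨?_, ?_, hall b hb.2⟩
    · intro h1
      exact hb.1 (by linarith)
    · intro h1
      apply hNQ
      have : M - g = b := by linarith
      rw [this]; exact hb.2
  have h1 := card_le_card hsub
  rw [card_image_of_injective _ (fun a b hab => by
      have h2 : M - g - a = M - g - b := hab
      linarith), card_erase_of_mem h.zQ, card_erase_of_mem (by
      rw [mem_erase]
      exact ⟨by omega, hNP⟩), card_erase_of_mem h.zP, h.cP, h.cQ] at h1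
  have h2 : 0 < (P.erase 0).card := card_pos.2 ⟨M - g, mem_erase.2 ⟨by omega, hNP⟩⟩
  rw [card_erase_of_mem h.zP, h.cP] at h2
  omega

/-- the bounds defining `g` -/
structure Gap (M g : ℤ) (P P' Q Q' : Finset ℤ) : Prop where
  hg : 0 < g
  hgM : g < M
  bP : ∀ a ∈ P, a ≠ 0 → g ≤ a ∧ a ≤ M - g
  bP' : ∀ a ∈ P', a ≠ 0 → g ≤ a ∧ a ≤ M - g
  bQ : ∀ a ∈ Q, a ≠ 0 → g ≤ a ∧ a ≤ M - g
  bQ' : ∀ a ∈ Q', a ≠ 0 → g ≤ a ∧ a ≤ M - g
  att : g ∈ P ∨ g ∈ P' ∨ g ∈ Q ∨ g ∈ Q' ∨ M - g ∈ P ∨ M - g ∈ P' ∨ M - g ∈ Q ∨ M - g ∈ Q'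

lemma Gap.swapP {g : ℤ} (h : Gap M g P P' Q Q') : Gap M g P' P Q Q' :=
  ⟨h.hg, h.hgM, h.bP', h.bP, h.bQ, h.bQ', by have := h.att; tauto⟩

lemma Gap.swapDS {g : ℤ} (h : Gap M g P P' Q Q') : Gap M g Q Q' P P' :=
  ⟨h.hg, h.hgM, h.bQ, h.bQ', h.bP, h.bP', by have := h.att; tauto⟩

lemma Gap.swapQ {g : ℤ} (h : Gap M g P P' Q Q') : Gap M g P P' Q' Q :=
  h.swapDS.swapP.swapDS

lemma exists_gap (h : Sys M n P P' Q Q') (hn : 2 ≤ n) : ∃ g, Gap M g P P' Q Q' := by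
  classical
  set U : Finset ℤ := (P ∪ P' ∪ Q ∪ Q').erase 0 with hU
  have hUm : ∀ a, a ∈ U ↔ a ≠ 0 ∧ (a ∈ P ∨ a ∈ P' ∨ a ∈ Q ∨ a ∈ Q') := by
    intro a
    rw [hU, mem_erase, mem_union, mem_union, mem_union]
    tauto
  have hUb : ∀ a ∈ U, 0 < a ∧ a < M := by
    intro a ha
    rw [hUm] at ha
    have h1 := h.rP a
    have h2 := h.rP' a
    have h3 := h.rQ a
    have h4 := h.rQ' a
    rcases ha with ⟨h0, ha | ha | ha | ha⟩
    · have := h1 ha; omega
    · have := h2 ha; omega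
    · have := h3 ha; omega
    · have := h4 ha; omega
  have hne : (U ∪ U.image (fun a => M - a)).Nonempty := by
    have h1 : 0 < (P.erase 0).card := by
      rw [card_erase_of_mem h.zP, h.cP]; omega
    obtain ⟨a, ha⟩ := card_pos.1 h1
    rw [mem_erase] at ha
    exact ⟨a, mem_union_left _ ((hUm a).2 ⟨ha.1, Or.inl ha.2⟩)⟩
  obtain ⟨g, hg, hmin⟩ := (U ∪ U.image (fun a => M - a)).exists_min_image id hne
  simp only [id] at hmin
  have hb : ∀ a ∈ U, g ≤ a ∧ a ≤ M - g := by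
    intro a ha
    have h1 := hmin a (mem_union_left _ ha)
    have h2 := hmin (M - a) (mem_union_right _ (mem_image.2 ⟨a, ha, rfl⟩))
    omega
  have hg2 : g ∈ U ∨ M - g ∈ U := by
    rcases mem_union.1 hg with h1 | h1
    · exact Or.inl h1
    · obtain ⟨a, ha, rfl⟩ := mem_image.1 h1
      right
      rwa [sub_sub_cancel]
  have hg3 : 0 < g ∧ g < M := by
    rcases hg2 with h1 | h1
    · exact hUb g h1
    · have := hUb _ h1
      omega
  refine ⟨g, hg3.1, hg3.2, ?_, ?_, ?_, ?_, ?_⟩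
  · intro a ha h0
    exact hb a ((hUm a).2 ⟨h0, by tauto⟩)
  · intro a ha h0
    exact hb a ((hUm a).2 ⟨h0, by tauto⟩)
  · intro a ha h0
    exact hb a ((hUm a).2 ⟨h0, by tauto⟩)
  · intro a ha h0
    exact hb a ((hUm a).2 ⟨h0, by tauto⟩)
  · rcases hg2 with h1 | h1
    · have := ((hUm g).1 h1).2
      tauto
    · have := ((hUm _).1 h1).2
      tauto

lemma N_PQ (h : Sys M n P P' Q Q') {g : ℤ} (k : Gap M g P P' Q Q') (hN : M - g ∈ P) : M - g ∈ Q := by
  by_contra hcon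
  exact h.noD k.hg k.bP k.bQ hN hcon k.hgM

/-- either all four sets contain `M - g`, or they all contain `g` and none contains `M - g` -/
lemma dichotomy (h : Sys M n P P' Q Q') {g : ℤ} (k : Gap M g P P' Q Q') :
    (M - g ∈ P ∧ M - g ∈ P' ∧ M - g ∈ Q ∧ M - g ∈ Q') ∨
    ((g ∈ P ∧ g ∈ P' ∧ g ∈ Q ∧ g ∈ Q') ∧ (M - g ∉ P ∧ M - g ∉ P' ∧ M - g ∉ Q ∧ M - g ∉ Q')) := by
  have a1 : M - g ∈ P → M - g ∈ Q := h.N_PQ k
  have a2 : M - g ∈ P' → M - g ∈ Q := h.swapP.N_PQ k.swapP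
  have a3 : M - g ∈ Q → M - g ∈ P := h.swapDS.N_PQ k.swapDS
  have a4 : M - g ∈ P → M - g ∈ Q' := h.swapQ.N_PQ k.swapQ
  have a5 : M - g ∈ Q → M - g ∈ P' := h.swapP.swapDS.N_PQ k.swapP.swapDS
  have a6 : M - g ∈ Q' → M - g ∈ P := h.swapQ.swapDS.N_PQ k.swapQ.swapDS
  have b1 := h.eR g k.hg.le k.hgM.le
  have b2 := h.eC g k.hg.le k.hgM.le
  have b3 := h.eR (M - g) (by have := k.hgM; omega) (by have := k.hg; omega)
  have b4 := h.eC (M - g) (by have := k.hgM; omega) (by have := k.hg; omega)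
  rw [sub_sub_cancel] at b3 b4
  have b5 := k.att
  by_cases hP : M - g ∈ P
  · exact Or.inl ⟨hP, a5 (a1 hP), a1 hP, a4 hP⟩
  · have hQ : M - g ∉ Q := fun hq => hP (a3 hq)
    have hP' : M - g ∉ P' := fun hq => hQ (a2 hq)
    have hQ' : M - g ∉ Q' := fun hq => hP (a6 hq)
    simp only [hP, hQ, hP', hQ', or_false, false_or] at b1 b2 b3 b4 b5
    right
    refine ⟨?_, hP, hP', hQ, hQ'⟩
    have c1 : g ∈ P := by
      rcases b5 with h1 | h1 | h1 | h1
      · exact h1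
      · exact b1.2 (b2.1 h1)
      · exact b1.2 h1
      · exact b1.2 (b2.1 (b3.1 h1))
    exact ⟨c1, b2.2 (b1.1 c1), b1.1 c1, b3.2 (b2.2 (b1.1 c1))⟩

/-- mirror images of one-sided elements -/
lemma mirror (h : Sys M n P P Q Q) {t : ℤ} (h1 : t ∈ P) (h2 : t ∉ Q) : M - t ∈ P ∧ M - t ∉ Q := by
  have h3 := h.rP t h1
  have h4 := h.eR t h3.1 h3.2.le
  have h5 := h.n4 t h1
  tauto

lemma mirror' (h : Sys M n P P' Q Q') {t : ℤ} (h1 : t ∈ P) (h2 : t ∉ P') : M - t ∈ P' ∧ M - t ∉ P := by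
  have h3 := h.rP t h1
  have h4 := h.eR t h3.1 h3.2.le
  have h5 := h.eC t h3.1 h3.2.le
  have h6 := h.n1 t h1
  have h7 := h.n4 t h1
  tauto

/-- equality of `P` and `P'` in case L -/
lemma PP'_L (h : Sys M n P P' Q Q') {g : ℤ} (k : Gap M g P P' Q Q')
    (hg : g ∈ P ∧ g ∈ P' ∧ g ∈ Q ∧ g ∈ Q') (hN : M - g ∉ P ∧ M - g ∉ P' ∧ M - g ∉ Q ∧ M - g ∉ Q') :
    P = P' := by
  classical
  have p1 := h.pairPQ k.hg k.bP k.bQ (Or.inr hg.2.1)
  have p2 := h.swapP.pairPQ k.hg k.bP' k.bQ (Or.inr hg.1)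
  obtain ⟨r1, x1, y1⟩ := p1.caseL hN.2.2.1 hN.1
  obtain ⟨r2, x2, y2⟩ := p2.caseL hN.2.2.1 hN.2.1
  -- a general one-sided statement
  have gen : ∀ P P' : Finset ℤ, Sys M n P P' Q Q' → Pair M g P Q → Pair M g P' Q → ∀ r1 r2 : ℕ,
      (∀ a, (a ∈ P ∧ M - g - a ∉ Q) ↔ ∃ j : ℕ, j ≤ r1 ∧ a = j * g) →
      (∀ a, (a ∈ Q ∧ M - g - a ∉ P) ↔ ∃ j : ℕ, j ≤ r1 ∧ a = j * g) →
      (∀ a, (a ∈ P' ∧ M - g - a ∉ Q) ↔ ∃ j : ℕ, j ≤ r2 ∧ a = j * g) →
      (∀ a, (a ∈ Q ∧ M - g - a ∉ P') ↔ ∃ j : ℕ, j ≤ r2 ∧ a = j * g) → r1 < r2 → False := by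
    intro P P' h p1 p2 r1 r2 x1 y1 x2 y2 hlt
    have e1 := (y2 ((r1 + 1 : ℕ) * g)).2 ⟨r1 + 1, by omega, rfl⟩
    have e2 : M - g - (r1 + 1 : ℕ) * g ∈ P := by
      by_contra hcon
      obtain ⟨j, hj, hj2⟩ := (y1 ((r1 + 1 : ℕ) * g)).1 ⟨e1.1, hcon⟩
      have : ((r1 + 1 : ℕ) : ℤ) = j := mul_right_cancel₀ k.hg.ne' hj2
      have : r1 + 1 = j := by exact_mod_cast this
      omega
    have e3 := e1.2
    obtain ⟨e4, e5⟩ := h.mirror' e2 e3
    have e6 : M - (M - g - (r1 + 1 : ℕ) * g) = (r1 + 2 : ℕ) * g := by push_cast; ring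
    rw [e6] at e4 e5
    -- `(r1+2) g ∈ P'`, and it is not in `Q`
    have e7 : ((r1 + 2 : ℕ) : ℤ) * g ∉ Q := by
      intro hq
      exact h.n4 _ e2 (by rw [e6]; exact hq)
    by_cases e8 : M - g - (r1 + 2 : ℕ) * g ∈ Q
    · -- then `(r1+2) g ∈ P` as well
      apply e5
      by_contra hcon
      have e9 : M - g - (M - g - (r1 + 2 : ℕ) * g) = (r1 + 2 : ℕ) * g := by ring
      obtain ⟨j, hj, hj2⟩ := (y1 (M - g - (r1 + 2 : ℕ) * g)).1 ⟨e8, by rw [e9]; exact hcon⟩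
      have f1 := (x1 (j * g)).2 ⟨j, hj, rfl⟩
      obtain ⟨i, hi, hi2⟩ : ∃ j' : ℕ, j' ≤ r2 ∧ (j : ℤ) * g = j' * g := ⟨j, by omega, rfl⟩
      have f2 := (y2 ((j : ℤ) * g)).2 ⟨j, by omega, rfl⟩
      apply f2.2
      rw [← hj2, e9]
      exact e4
    · obtain ⟨j, hj, hj2⟩ := (x2 ((r1 + 2 : ℕ) * g)).1 ⟨e4, e8⟩
      have : ((r1 + 2 : ℕ) : ℤ) = j := mul_right_cancel₀ k.hg.ne' hj2
      have hj3 : r1 + 2 = j := by exact_mod_cast this
      have f1 := (y2 ((r1 + 2 : ℕ) * g)).2 ⟨r1 + 2, by omega, rfl⟩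
      exact e7 f1.1
  rcases lt_trichotomy r1 r2 with hlt | heq | hgt
  · exact (gen P P' h p1 p2 r1 r2 x1 y1 x2 y2 hlt).elim
  · subst heq
    ext a
    have e9 : ∀ a : ℤ, M - g - (M - g - a) = a := by intro a; ring
    constructor
    · intro ha
      by_cases h1 : M - g - a ∈ Q
      · by_contra hcon
        have h2 := (y2 (M - g - a)).1 ⟨h1, by rw [e9]; exact hcon⟩
        have h3 := (y1 (M - g - a)).2 h2
        exact h3.2 (by rw [e9]; exact ha)
      · exact ((x2 a).2 ((x1 a).1 ⟨ha, h1⟩)).1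
    · intro ha
      by_cases h1 : M - g - a ∈ Q
      · by_contra hcon
        have h2 := (y1 (M - g - a)).1 ⟨h1, by rw [e9]; exact hcon⟩
        have h3 := (y2 (M - g - a)).2 h2
        exact h3.2 (by rw [e9]; exact ha)
      · exact ((x1 a).2 ((x2 a).1 ⟨ha, h1⟩)).1
  · exact (gen P' P h.swapP p2 p1 r2 r1 x2 y2 x1 y1 hgt).elim

/-- `P ⊆ Q` once `P = P'` and `Q = Q'` -/
lemma P_sub_Q (h : Sys M n P P Q Q) {g : ℤ} (k : Gap M g P P Q Q) : P ⊆ Q ∧ Q ⊆ P := by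
  classical
  by_contra hcon
  -- the least one-sided element
  have hne : ((P \ Q) ∪ (Q \ P)).Nonempty := by
    by_contra h1
    rw [not_nonempty_iff_eq_empty, union_eq_empty, sdiff_eq_empty_iff_subset,
      sdiff_eq_empty_iff_subset] at h1
    exact hcon h1
  obtain ⟨u, hu, hmin⟩ := ((P \ Q) ∪ (Q \ P)).exists_min_image id hne
  simp only [id] at hmin
  have gen : ∀ P Q : Finset ℤ, Sys M n P P Q Q → Gap M g P P Q Q → u ∈ P → u ∉ Q →
      (∀ x ∈ (P \ Q) ∪ (Q \ P), u ≤ x) → False := by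
    intro P Q h k h1 h2 hmin
    have hg := k.hg
    obtain ⟨m1, m2⟩ := h.mirror h1 h2
    have hd : ∀ x, x < u → (x ∈ P ↔ x ∈ Q) := by
      intro x hx
      by_contra hc
      have : x ∈ (P \ Q) ∪ (Q \ P) := by
        rw [mem_union, mem_sdiff, mem_sdiff]; tauto
      have := hmin x this
      omega
    rcases h.dichotomy k with hH | ⟨hg4, hN4⟩
    · have p1 := h.pairPQ k.hg k.bP k.bQ (Or.inl hH.1)
      have c1 := p1.caseH hH.2.2.1
      have c2 := c1 _ m1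
      have e1 : M - g - (M - u) = u - g := by ring
      rw [e1] at c2
      have c3 := (hd (u - g) (by omega)).2 c2
      have c4 := c1 _ c3
      have e2 : M - g - (u - g) = M - u := by ring
      rw [e2] at c4
      exact m2 c4
    · have p1 := h.pairPQ k.hg k.bP k.bQ (Or.inr hg4.1)
      obtain ⟨r, x1, y1⟩ := p1.caseL hN4.2.2.1 hN4.1
      have c0 : ∀ a ∈ P, a ∉ Q → M - g - a ∈ Q := by
        intro a ha ha2
        by_contra hc
        exact ha2 ((y1 a).2 ((x1 a).1 ⟨ha, hc⟩)).1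
      have c2 := c0 _ m1 m2
      have e1 : M - g - (M - u) = u - g := by ring
      rw [e1] at c2
      have c3 := (hd (u - g) (by omega)).2 c2
      have e2 : M - g - (u - g) = M - u := by ring
      obtain ⟨j, hj, hj2⟩ := (x1 (u - g)).1 ⟨c3, by rw [e2]; exact m2⟩
      have hu1 : u = (j + 1 : ℕ) * g := by push_cast; linarith
      have hjr : j = r := by
        by_contra hc
        have := (y1 u).2 ⟨j + 1, by omega, hu1⟩
        exact h2 this.1
      subst hjr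
      have f1 := (y1 (j * g)).2 ⟨j, le_rfl, rfl⟩
      apply f1.2
      have e3 : M - g - (j : ℤ) * g = M - u := by rw [hu1]; push_cast; ring
      rw [e3]
      exact m1
  rw [mem_union, mem_sdiff, mem_sdiff] at hu
  rcases hu with ⟨h1, h2⟩ | ⟨h1, h2⟩
  · exact gen P Q h k h1 h2 hmin
  · exact gen Q P h.swapDS k.swapDS h1 h2 (by rw [union_comm]; exact hmin)

/-- all four sets coincide -/
theorem all_eq (h : Sys M n P P' Q Q') (hn : 2 ≤ n) : P = P' ∧ Q = Q' ∧ P = Q := by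
  classical
  obtain ⟨g, k⟩ := h.exists_gap hn
  have e9 : ∀ a : ℤ, M - g - (M - g - a) = a := by intro a; ring
  have hPP : P = P' ∧ Q = Q' := by
    rcases h.dichotomy k with hH | ⟨hg4, hN4⟩
    · have p1 := h.pairPQ k.hg k.bP k.bQ (Or.inl hH.1)
      have p2 := h.swapP.pairPQ k.hg k.bP' k.bQ (Or.inl hH.2.1)
      have p3 := h.swapQ.pairPQ k.hg k.bP k.bQ' (Or.inl hH.1)
      have c1 := p1.caseH hH.2.2.1
      have c1' := p1.symm.caseH hH.1
      have c2 := p2.caseH hH.2.2.1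
      have c2' := p2.symm.caseH hH.2.1
      have c3 := p3.caseH hH.2.2.2
      have c3' := p3.symm.caseH hH.1
      constructor
      · ext a
        constructor
        · intro ha
          have := c2' _ (c1 a ha)
          rwa [e9] at this
        · intro ha
          have := c1' _ (c2 a ha)
          rwa [e9] at this
      · ext a
        constructor
        · intro ha
          have := c3 _ (c1' a ha)
          rwa [e9] at this
        · intro ha
          have := c1 _ (c3' a ha)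
          rwa [e9] at this
    · exact ⟨h.PP'_L k hg4 hN4, h.swapDS.PP'_L k.swapDS (by tauto) (by tauto)⟩
  obtain ⟨rfl, rfl⟩ := hPP
  have := h.P_sub_Q k
  exact ⟨rfl, rfl, Subset.antisymm this.1 this.2⟩

end Sys

end Pool.Agent.TH533.Q
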